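import Pool.Agent.Q49.EX.E

set_option autoImplicit false

/-!
The maximum excursions of the `3x+1` map and the prime factors of the starting values.

A test set is given by inequalities for arbitrary real additive functions (the number of prime factors,
`log (σ(n) / n)`, ...), and an arbitrary condition on the vector of the numbers of prime factors in given
arbitrary sets of primes (or any other additive function with few values at the primes) and on the list of the
`k` largest prime factors. In every test set, up to `ε N`, the ratio `t(n) / n` of the maximum excursion to the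
starting value is governed by the first `K` parities of the trajectory (a condition on `n` modulo `2 ^ K`): the
`n ≤ N` in the test set with `t(n) ≤ lam n` are `β` times those for which the first `K` parities allow this,
`β` the density of the integers of finite excursion. This is uniform in the test sets and remains true inside
every invariant set, and jointly with the normal law of the total stopping time.
-/

namespace Pool.Agent.Results.MP_0a5adf_nt.ExcursionsAndPrimeFactors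

open Filter Topology

/-- the accelerated `3x+1` map -/
def T (n : ℕ) : ℕ := if n % 2 = 0 then n / 2 else (3 * n + 1) / 2

/-- `t(n) < ∞` -/
def FiniteExcursion (n : ℕ) : Prop := ∃ M : ℕ, ∀ k, T^[k] n ≤ M

/-- `t(n) ≤ c` -/
def ExcursionLE (n : ℕ) (c : ℝ) : Prop := ∀ k, ((T^[k] n : ℕ) : ℝ) ≤ c

/-- A positive integer `n` is in `S` if and only if `T n` is. -/
def Invariant (S : Set ℕ) : Prop := ∀ n : ℕ, 1 ≤ n → (n ∈ S ↔ T n ∈ S)

/-- the positive integers with the property `P` have the natural density `δ` -/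
def HasDensity (P : ℕ → Prop) (δ : ℝ) : Prop :=
  Tendsto (fun N : ℕ => ({n : ℕ | 1 ≤ n ∧ n ≤ N ∧ P n}.ncard : ℝ) / N) atTop (𝓝 δ)

/-- the number of odd terms among `n, T n, ..., T^(k-1) n` -/
def odds (k n : ℕ) : ℕ := ((Finset.range k).filter fun i => T^[i] n % 2 = 1).card

/-- `3 ^ (number of the odd terms among the first k) < lam * 2 ^ k` for `1 ≤ k ≤ K`; this depends on
`n` modulo `2 ^ K` only. -/
def Safe (K : ℕ) (lam : ℝ) (n : ℕ) : Prop := ∀ k, 1 ≤ k → k ≤ K → (3 : ℝ) ^ odds k n < lam * 2 ^ k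

/-- `t` is the total stopping time of `n` -/
def IsTotalStoppingTime (n t : ℕ) : Prop := T^[t] n = 1 ∧ ∀ j < t, T^[j] n ≠ 1

/-- `2 / log (4/3) * log n + x * log 3 * √(2 log n / (log (4/3))^3)` -/
noncomputable def bound (x : ℝ) (n : ℕ) : ℝ :=
  2 / Real.log (4 / 3) * Real.log n
    + x * (Real.log 3 * Real.sqrt (2 * Real.log n / Real.log (4 / 3) ^ 3))

/-- The distribution function of the standard normal law. -/
noncomputable def Phi (x : ℝ) : ℝ :=
  ProbabilityTheory.cdf (ProbabilityTheory.gaussianReal 0 1) x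

/-- `n` has a total stopping time `t ≤ bound x n`, `t ≡ a` modulo `m`, the number of odd terms before reaching
`1` being `≡ b` modulo `m`. -/
def Level (m : ℕ) (a b : ℤ) (x : ℝ) (n : ℕ) : Prop :=
  ∃ t : ℕ, (t : ℝ) ≤ bound x n ∧ IsTotalStoppingTime n t ∧ (t : ℤ) ≡ a [ZMOD m] ∧ (odds t n : ℤ) ≡ b [ZMOD m]

/-- A multiplicative function with values in the closed unit disc. -/
def Multiplicative (g : ℕ → ℂ) : Prop :=
  (∀ n, ‖g n‖ ≤ 1) ∧ ∀ m n : ℕ, Nat.Coprime m n → g (m * n) = g m * g n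

/-- An additive function with values in a commutative monoid. -/
def Additive {A : Type} [AddCommMonoid A] (f : ℕ → A) : Prop :=
  ∀ m n : ℕ, Nat.Coprime m n → f (m * n) = f m + f n

/-- `h` has at most `r` different values at the primes. -/
def FewValues {A : Type} (r : ℕ) (h : ℕ → A) : Prop :=
  ∃ V : Finset A, V.card ≤ r ∧ ∀ p : ℕ, p.Prime → h p ∈ V

/-- The `k` largest prime factors of `n`, with multiplicity, in decreasing order (all prime factors, if `n` has
fewer than `k`). -/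
def top (k n : ℕ) : List ℕ := n.primeFactorsList.reverse.take k

/-- The test sets: `f i n ∈ I i` for `d` real additive functions `f i` and intervals `I i`, and
`(h n, top k n) ∈ B` for an additive function `h` with at most `r` values at the primes and any set `B`. -/
def IsTest (d r k : ℕ) (E : Set ℕ) : Prop :=
  ∃ (f : Fin d → ℕ → ℝ) (I : Fin d → Set ℝ) (A : Type) (_ : AddCommMonoid A) (h : ℕ → A) (B : Set (A × List ℕ)),
    (∀ i, Additive (f i)) ∧ (∀ i, (I i).OrdConnected) ∧ Additive h ∧ FewValues r h ∧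
    E = {n : ℕ | (∀ i, f i n ∈ I i) ∧ (h n, top k n) ∈ B}

/-- The number of the positive integers `n ≤ N` in `E` with the property `P`. -/
noncomputable def Count (N : ℕ) (P : ℕ → Prop) (E : Set ℕ) : ℕ := {n : ℕ | 1 ≤ n ∧ n ≤ N ∧ n ∈ E ∧ P n}.ncard

/-- The proportion of the `n ≤ N` in `E N` tends to `p`, and they are equidistributed modulo all powers of two. -/
def Balanced (E : ℕ → Set ℕ) (p : ℝ) : Prop :=
  ∀ j a : ℕ, Tendsto (fun N : ℕ => (Count N (fun n => n % 2 ^ j = a % 2 ^ j) (E N) : ℝ) / N) atTop (𝓝 (p / 2 ^ j))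

open Pool.Agent.Q49.EX (Ec Sml)
open Pool.Agent.H499R2.ND (AK rK Bdd Tn)

theorem odd_eq (k n : ℕ) : odds k n = Pool.Agent.Helper894.Collatz.od k n := by
  unfold odds
  induction k with
  | zero => simp [Pool.Agent.Helper894.Collatz.od]
  | succ k ih =>
    rw [Finset.range_add_one, Finset.filter_insert, Pool.Agent.Helper894.Collatz.od_succ, ← ih,
      Pool.Agent.H499R2.ND.Tn_eq]
    have e : Tn^[k] n = T^[k] n := rfl
    rw [e]
    rcases Nat.mod_two_eq_zero_or_one (T^[k] n) with h | h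
    · rw [if_neg (by omega), h, add_zero]
    · rw [if_pos h, h, Finset.card_insert_of_notMem (by simp)]

theorem fin_eq : FiniteExcursion = Bdd := rfl

theorem exc_eq (n : ℕ) (lam : ℝ) : ExcursionLE n (lam * n) = Ec lam n := rfl

theorem cnt_eq' : Count = Pool.Agent.Q49.EX.Count := rfl

theorem isTest_iff (d r k : ℕ) (E : Set ℕ) : IsTest d r k E ↔ Pool.Agent.Q49.EX.IsTest d r k E := Iff.rfl

theorem dens_eq : HasDensity = Pool.Agent.H499R2.ND.Dn := rfl

theorem inv_iff (S : Set ℕ) : Invariant S ↔ ∀ n, 1 ≤ n → ((fun n => n ∈ S) n ↔ (fun n => n ∈ S) (Tn n)) := Iff.rfl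

theorem safe_iff (K : ℕ) (lam : ℝ) (n : ℕ) : Safe K lam n ↔ AK K lam n := by
  unfold Safe AK
  simp only [odd_eq]

theorem safe_eq (K : ℕ) (lam : ℝ) : Safe K lam = AK K lam := funext fun n => propext (safe_iff K lam n)

theorem count_compl (N : ℕ) (P : ℕ → Prop) (E : Set ℕ) :
    (Count N (fun _ => True) E : ℝ) = Count N P E + Count N (fun n => ¬ P n) E := by
  classical
  have e := fun (P : ℕ → Prop) => Pool.Agent.Q49.EX.count_eq N P E
  have e' : ∀ P : ℕ → Prop, (Count N P E : ℝ) = ∑ n ∈ Finset.Icc 1 N, if n ∈ E then (if P n then (1 : ℝ) else 0) else 0 := by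
    intro P
    rw [cnt_eq', e P]
  rw [e', e', e', ← Finset.sum_add_distrib]
  apply Finset.sum_congr rfl; intro n _
  by_cases h13 : n ∈ E
  · rw [if_pos h13, if_pos h13, if_pos h13]
    by_cases h14 : P n
    · rw [if_pos trivial, if_pos h14, if_neg (not_not.2 h14)]; norm_num
    · rw [if_pos trivial, if_neg h14, if_pos h14]; norm_num
  · rw [if_neg h13, if_neg h13, if_neg h13]; norm_num

open scoped Classical in
/-- MAXIMUM EXCURSIONS AND PRIME FACTORS. Let `β > 0` be the natural density of the `n` with `t(n) < ∞` and `α > 0`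
that of the `n` which reach `1`, and for `lam ≥ 1` let `q lam` be the limit of the proportion of the safe classes
modulo `2 ^ K`. (1) For all `d`, `r`, `k`, `lam ≥ 1`, `ε > 0`, every large `K` and every `N ≥ N₀`, for all invariant
sets `S` (`δ` the density of the elements of `S` of finite excursion) and all test sets `E`: the number of the
`n ≤ N` in `E` and in `S` with `t(n) ≤ lam n` is `δ` times the number of the safe `n ≤ N` in `E`, and the number of
those with `lam n < t(n) < ∞` is `δ` times the number of the other `n ≤ N` in `E`, up to `ε N`; the first is also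
true with multiplicative weights of modulus at most one. (2) For all `m ≥ 1`, `a`, `b` and real `x` the number of
the `n ≤ N` in `E` with `t(n) ≤ lam n` which have a total stopping time at most `bound x n`, in the class of `a`,
the number of the odd terms before reaching `1` being in the class of `b` modulo `m`, is `α Phi x / m ^ 2` times
the number of the safe `n ≤ N` in `E`, up to `ε N`. (3) LIMIT LAWS. If the test sets `E N`, depending on `N` in any
way, are balanced modulo powers of two and have `p N + o(N)` elements `n ≤ N`, the proportion of the `n ≤ N` which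
are in `E N` and in `S` with `t(n) ≤ lam n` tends to `δ q(lam) p`, and the proportion of the `n ≤ N` in `E N` with
`t(n) ≤ lam n` satisfying the conditions of (2) tends to `α Phi x / m ^ 2 q(lam) p`. (4) Let `F` be any function
(for example `F n = C n ^ 2`). If for infinitely many `N` there are test sets with at least `κ N` elements `n ≤ N`,
almost all of which satisfy `t(n) ≤ F n`, then `t(n) < ∞` for all `n`. -/
theorem result : ∃ β : ℝ, 0 < β ∧ β ≤ 1 ∧ (β = 1 ↔ ∀ n : ℕ, 1 ≤ n → FiniteExcursion n) ∧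
    HasDensity FiniteExcursion β ∧
    ∃ α : ℝ, 0 < α ∧ α ≤ 1 ∧ HasDensity (fun n => ∃ k, T^[k] n = 1) α ∧
    ∃ q : ℝ → ℝ, (∀ lam : ℝ, 1 ≤ lam → 1 - 1 / lam ≤ q lam ∧ q lam ≤ 1 ∧
      Tendsto (fun K : ℕ => ({n : ℕ | n < 2 ^ K ∧ Safe K lam n}.ncard : ℝ) / 2 ^ K) atTop (𝓝 (q lam))) ∧
    (∀ (d r k : ℕ) (lam : ℝ), 1 ≤ lam → ∀ ε : ℝ, 0 < ε → ∃ K₀ : ℕ, ∀ K : ℕ, K₀ ≤ K → ∃ N₀ : ℕ,
      ∀ S : Set ℕ, Invariant S → ∃ δ : ℝ, HasDensity (fun n => n ∈ S ∧ FiniteExcursion n) δ ∧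
      ∀ N : ℕ, N₀ ≤ N → ∀ E : Set ℕ, IsTest d r k E →
        |(Count N (fun n => n ∈ S ∧ ExcursionLE n (lam * n)) E : ℝ) - δ * Count N (Safe K lam) E| ≤ ε * N ∧
        |(Count N (fun n => n ∈ S ∧ FiniteExcursion n ∧ ¬ ExcursionLE n (lam * n)) E : ℝ)
          - δ * Count N (fun n => ¬ Safe K lam n) E| ≤ ε * N ∧
        ∀ g : ℕ → ℂ, Multiplicative g →
          ‖∑ n ∈ Finset.Icc 1 N, if n ∈ E then ((if n ∈ S ∧ ExcursionLE n (lam * n) then (1 : ℂ) else 0)
            - δ * (if Safe K lam n then 1 else 0)) * g n else 0‖ ≤ ε * N) ∧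
    (∀ (d r k : ℕ) (lam : ℝ), 1 ≤ lam → ∀ (m : ℕ) (a b : ℤ) (x : ℝ), 1 ≤ m → ∀ ε : ℝ, 0 < ε →
      ∃ K₀ : ℕ, ∀ K : ℕ, K₀ ≤ K → ∃ N₀ : ℕ, ∀ N : ℕ, N₀ ≤ N → ∀ E : Set ℕ, IsTest d r k E →
        |(Count N (fun n => Level m a b x n ∧ ExcursionLE n (lam * n)) E : ℝ)
          - α * Phi x / m ^ 2 * Count N (Safe K lam) E| ≤ ε * N) ∧
    (∀ (d r k : ℕ) (E : ℕ → Set ℕ), (∀ N, IsTest d r k (E N)) → ∀ p : ℝ, Balanced E p → ∀ lam : ℝ, 1 ≤ lam →
      (∀ S : Set ℕ, Invariant S → ∀ δ : ℝ, HasDensity (fun n => n ∈ S ∧ FiniteExcursion n) δ →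
        Tendsto (fun N : ℕ => (Count N (fun n => n ∈ S ∧ ExcursionLE n (lam * n)) (E N) : ℝ) / N) atTop
          (𝓝 (δ * q lam * p))) ∧
      ∀ (m : ℕ) (a b : ℤ) (x : ℝ), 1 ≤ m →
        Tendsto (fun N : ℕ => (Count N (fun n => Level m a b x n ∧ ExcursionLE n (lam * n)) (E N) : ℝ) / N) atTop
          (𝓝 (α * Phi x / m ^ 2 * q lam * p))) ∧
    ∀ (d r k : ℕ) (E : ℕ → Set ℕ), (∀ N, IsTest d r k (E N)) → ∀ (F : ℕ → ℝ) (κ : ℝ) (ψ : ℕ → ℝ), 0 < κ →
      Tendsto ψ atTop (𝓝 0) →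
      (∃ᶠ N : ℕ in atTop, κ * N ≤ Count N (fun _ => True) (E N) ∧
        (Count N (fun n => ¬ ExcursionLE n (F n)) (E N) : ℝ) ≤ ψ N * N) →
      ∀ n : ℕ, 1 ≤ n → FiniteExcursion n := by
  obtain ⟨β, h0, h1, h2, h3⟩ := Pool.Agent.H499R2.ND.Bdd_density
  obtain ⟨α, a0, a1, _, a3, _, a5⟩ := Pool.Agent.Q49.EX.rx_laws
  have hq : ∀ lam : ℝ, ∃ q : ℝ, 1 ≤ lam → 1 - 1 / lam ≤ q ∧ q ≤ 1 ∧
      Tendsto (fun K : ℕ => rK K lam) atTop (𝓝 q) := by
    intro lam
    by_cases hl : 1 ≤ lam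
    · obtain ⟨q, g1, g2, g3, _⟩ := Pool.Agent.H499R2.ND.exc_law h3 hl
      exact ⟨q, fun _ => ⟨g2, g3, g1⟩⟩
    · exact ⟨0, fun h' => absurd h' hl⟩
  choose q hq using hq
  -- (2) as a statement on the class
  have hLev : ∀ (m : ℕ) (a b : ℤ) (x : ℝ), 1 ≤ m → Pool.Agent.Q49.AF.RX (Level m a b x) (α * Phi x / m ^ 2) := by
    intro m a b x hm
    have h6 := ((a5 m a b hm).2.2 x).1
    have e : α / (m : ℝ) ^ 2 * Pool.Agent.H499R2.ND.Phi x = α * Phi x / m ^ 2 := by
      rw [Pool.Agent.H499R2.ND.phi_cdf]; unfold Phi; ring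
    rw [e] at h6
    refine Pool.Agent.Q49.AF.RX_congr (fun n _ => ?_) h6
    unfold Level Pool.Agent.H499R2.HL.bk Pool.Agent.H499R2.HL.H
    refine exists_congr fun k => ?_
    constructor
    · rintro ⟨g1, g2, g3, g4⟩; exact ⟨g2, g1, g3, g4⟩
    · rintro ⟨g2, g1, g3, g4⟩; exact ⟨g1, g2, g3, g4⟩
  have hLB : ∀ (m : ℕ) (a b : ℤ) (x : ℝ) (n : ℕ), 1 ≤ n → Level m a b x n → Bdd n := by
    rintro m a b x n _ ⟨t, _, ⟨ht, _⟩, _⟩
    have h1 : Bdd ((Tn)^[t] n) := by
      have e : (Tn)^[t] n = 1 := ht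
      rw [e]
      refine ⟨2, fun k => ?_⟩
      have : ∀ k : ℕ, Tn^[k] 1 = 1 ∨ Tn^[k] 1 = 2 := by
        intro k
        induction k with
        | zero => left; rfl
        | succ k ih =>
          rw [Function.iterate_succ_apply']
          rcases ih with h | h <;> rw [h]
          · right; rfl
          · left; rfl
      rcases this k with h | h <;> omega
    have h2 : ∀ t : ℕ, ∀ n : ℕ, Bdd ((Tn)^[t] n) → Bdd n := by
      intro t
      induction t with
      | zero => intro n h; exact h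
      | succ t ih =>
        intro n h
        rw [Function.iterate_succ_apply] at h
        exact (Pool.Agent.H499R2.ND.Bdd_inv n).2 (ih _ h)
    exact h2 t n h1
  have hLaw2 : ∀ (d r k : ℕ) (lam : ℝ), 1 ≤ lam → ∀ (m : ℕ) (a b : ℤ) (x : ℝ), 1 ≤ m → ∀ ε : ℝ, 0 < ε →
      ∃ K₀ : ℕ, ∀ K : ℕ, K₀ ≤ K → ∃ N₀ : ℕ, ∀ N : ℕ, N₀ ≤ N → ∀ E : Set ℕ, IsTest d r k E →
        |(Count N (fun n => Level m a b x n ∧ ExcursionLE n (lam * n)) E : ℝ)
          - α * Phi x / m ^ 2 * Count N (AK K lam) E| ≤ ε * N := by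
    intro d r k lam hl m a b x hm ε hε
    obtain ⟨K0, hK0⟩ := Pool.Agent.Q49.EX.exc_rx (hLev m a b x hm) (hLB m a b x) (d + d) r k hl
      (lt_min hε one_pos) (min_le_right ε 1)
    refine ⟨K0, fun K hK => ?_⟩
    obtain ⟨N0, hN0⟩ := hK0 K hK
    refine ⟨N0, fun N hN E hE => ?_⟩
    have h := Pool.Agent.Q49.EX.count_of (P := fun n => Level m a b x n ∧ Ec lam n) (Q := AK K lam)
      (l := α * Phi x / m ^ 2) (Pool.Agent.Q49.EX.sml_congr (hN0 N hN) (fun n _ => by congr)) (E := E)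
      ((isTest_iff d r k E).1 hE)
    simp only [exc_eq, cnt_eq']
    exact h.trans (mul_le_mul_of_nonneg_right (min_le_left _ _) (Nat.cast_nonneg _))
  have hLaw1 : ∀ (d r k : ℕ) (lam : ℝ), 1 ≤ lam → ∀ ε : ℝ, 0 < ε → ∃ K₀ : ℕ, ∀ K : ℕ, K₀ ≤ K → ∃ N₀ : ℕ,
      ∀ S : Set ℕ, Invariant S → ∀ δ : ℝ, HasDensity (fun n => n ∈ S ∧ FiniteExcursion n) δ →
      ∀ N : ℕ, N₀ ≤ N → ∀ E : Set ℕ, IsTest d r k E →
        |(Count N (fun n => n ∈ S ∧ ExcursionLE n (lam * n)) E : ℝ) - δ * Count N (AK K lam) E| ≤ ε * N ∧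
        |(Count N (fun n => n ∈ S ∧ FiniteExcursion n ∧ ¬ ExcursionLE n (lam * n)) E : ℝ)
          - δ * Count N (fun n => ¬ AK K lam n) E| ≤ ε * N ∧
        ∀ g : ℕ → ℂ, Multiplicative g →
          ‖∑ n ∈ Finset.Icc 1 N, if n ∈ E then ((if n ∈ S ∧ ExcursionLE n (lam * n) then (1 : ℂ) else 0)
            - δ * (if AK K lam n then 1 else 0)) * g n else 0‖ ≤ ε * N := by
    intro d r k lam hl ε hε
    obtain ⟨K1, hK1⟩ := Pool.Agent.Q49.EX.exc_inv (d + d) r k hl (lt_min hε one_pos) (min_le_right ε 1)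
    obtain ⟨K2, hK2⟩ := Pool.Agent.Q49.EX.exc_far (d + d) r k hl (lt_min hε one_pos) (min_le_right ε 1)
    refine ⟨K1 + K2, fun K hK => ?_⟩
    obtain ⟨N1, hN1⟩ := hK1 K (by omega)
    obtain ⟨N2, hN2⟩ := hK2 K (by omega)
    refine ⟨N1 + N2, fun S hS δ hδ N hN E hE => ?_⟩
    have g1 := hN1 (fun n => n ∈ S) hS δ hδ N (by omega)
    have g2 := hN2 (fun n => n ∈ S) hS δ hδ N (by omega)
    have hmin : min ε 1 * (N : ℝ) ≤ ε * N := mul_le_mul_of_nonneg_right (min_le_left _ _) (Nat.cast_nonneg _)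
    have hE' := (isTest_iff d r k E).1 hE
    simp only [exc_eq, cnt_eq', fin_eq]
    refine ⟨?_, ?_, fun g hg => ?_⟩
    · exact (Pool.Agent.Q49.EX.count_of (P := fun n => n ∈ S ∧ Ec lam n) (Q := AK K lam) (l := δ)
        (Pool.Agent.Q49.EX.sml_congr g1 (fun n _ => by congr)) (E := E) hE').trans hmin
    · exact (Pool.Agent.Q49.EX.count_of (P := fun n => n ∈ S ∧ Bdd n ∧ ¬ Ec lam n) (Q := fun n => ¬ AK K lam n) (l := δ)
        (Pool.Agent.Q49.EX.sml_congr g2 (fun n _ => by congr)) (E := E) hE').trans hmin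
    · exact (Pool.Agent.Q49.EX.test_of g1 (E := E) hE' hg).trans hmin
  have hdens : ∀ S : Set ℕ, Invariant S → ∃ δ : ℝ, 0 ≤ δ ∧ δ ≤ 1 ∧ HasDensity (fun n => n ∈ S ∧ FiniteExcursion n) δ := by
    intro S hS
    obtain ⟨l, l0, l1, l2, _⟩ := Pool.Agent.H499R2.ND.nat_density (P := fun n => n ∈ S ∧ Bdd n) (fun n hn =>
      and_congr (hS n hn) (Pool.Agent.H499R2.ND.Bdd_inv n))
    exact ⟨l, l0, l1, l2⟩
  refine ⟨β, h0, h1, h2, h3, α, a0, a1, a3, q, fun lam hl => ?_, ?_, ?_, ?_, ?_⟩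
  · refine ⟨(hq lam hl).1, (hq lam hl).2.1, (hq lam hl).2.2.congr fun K => ?_⟩
    unfold rK
    congr 2
    rw [← Set.ncard_coe_finset]
    congr 1
    ext n
    rw [Finset.mem_coe, Finset.mem_filter, Finset.mem_range]
    exact and_congr_right fun _ => (safe_iff K lam n).symm
  · intro d r k lam hl ε hε
    obtain ⟨K0, hK0⟩ := hLaw1 d r k lam hl ε hε
    refine ⟨K0, fun K hK => ?_⟩
    obtain ⟨N0, hN0⟩ := hK0 K hK
    refine ⟨N0, fun S hS => ?_⟩
    obtain ⟨δ, _, _, hδ⟩ := hdens S hS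
    refine ⟨δ, hδ, fun N hN E hE => ?_⟩
    simp only [safe_eq]
    exact hN0 S hS δ hδ N hN E hE
  · simp only [safe_eq]
    exact hLaw2
  · intro d r k E hE p hp lam hl
    refine ⟨fun S hS δ hδ => ?_, fun m a b x hm => ?_⟩
    · simp only [exc_eq, cnt_eq']
      refine Pool.Agent.Q49.EX.lim_law (P := fun n => n ∈ S ∧ Ec lam n) (l := δ) (q := q lam) (lam := lam)
        (hq lam hl).2.2 hp (fun ε hε => ?_)
      obtain ⟨K0, hK0⟩ := hLaw1 d r k lam hl ε hε
      refine ⟨K0, fun K hK => ?_⟩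
      obtain ⟨N0, hN0⟩ := hK0 K hK
      exact ⟨N0, fun N hN => (hN0 S hS δ hδ N hN (E N) (hE N)).1⟩
    · simp only [exc_eq, cnt_eq']
      refine Pool.Agent.Q49.EX.lim_law (P := fun n => Level m a b x n ∧ Ec lam n) (l := α * Phi x / m ^ 2)
        (q := q lam) (lam := lam) (hq lam hl).2.2 hp (fun ε hε => ?_)
      obtain ⟨K0, hK0⟩ := hLaw2 d r k lam hl m a b x hm ε hε
      refine ⟨K0, fun K hK => ?_⟩
      obtain ⟨N0, hN0⟩ := hK0 K hK
      exact ⟨N0, fun N hN => hN0 N hN (E N) (hE N)⟩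
  · intro d r k E hE F κ ψ hκ hψ h
    refine h2.1 ?_
    by_contra hcon
    have hβ1 : 0 < 1 - β := by
      rcases h1.lt_or_eq with h6 | h6
      · linarith
      · exact absurd h6 hcon
    obtain ⟨N0, _, hN0⟩ := Pool.Agent.Q49.EX.orth_all (s := 1) (Or.inl rfl)
      (show 0 < min ((1 - β) * κ / 2) 1 by positivity) (min_le_right _ _) (d + d) r k
    have g2 := hN0 (Pool.Agent.H499R2.ND.NS Bdd) (Pool.Agent.H499R2.ND.NS_inv fun n _ => Pool.Agent.H499R2.ND.Bdd_inv n) β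
      (Pool.Agent.Q49.EX.hd_nat (fun n _ => Pool.Agent.H499R2.ND.Bdd_inv n) h3)
    have h6 : ∀ᶠ N : ℕ in atTop, ψ N < (1 - β) * κ / 2 := (tendsto_order.1 hψ).2 _ (by positivity)
    obtain ⟨N, ⟨h7, h8⟩, h9, h10⟩ := (h.and_eventually (h6.and (eventually_ge_atTop (N0 + 1)))).exists
    have hNp : (0 : ℝ) < N := by exact_mod_cast (by omega : 0 < N)
    have g3 := g2 N (by omega) 0
    have h11 := (abs_le.1 (Pool.Agent.Q49.EX.count_of (P := Bdd) (Q := fun _ => True) (l := β)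
      (Pool.Agent.Q49.EX.sml_congr g3 (fun n hn => by
        rw [Pool.Agent.Q49.EX.bal_eq β hn, if_pos trivial, mul_one])) (E := E N) ((isTest_iff d r k (E N)).1 (hE N)))).2
    rw [← cnt_eq'] at h11
    have h11' : (Count N Bdd (E N) : ℝ) - β * Count N (fun _ => True) (E N) ≤ (1 - β) * κ / 2 * N :=
      le_trans h11 (mul_le_mul_of_nonneg_right (min_le_left _ _) hNp.le)
    have h12 := count_compl N Bdd (E N)
    have h13 : (Count N (fun n => ¬ Bdd n) (E N) : ℝ) ≤ Count N (fun n => ¬ ExcursionLE n (F n)) (E N) := by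
      have hfin : {n : ℕ | 1 ≤ n ∧ n ≤ N ∧ n ∈ E N ∧ ¬ ExcursionLE n (F n)}.Finite :=
        (Set.finite_Icc 1 N).subset fun n hn => ⟨hn.1, hn.2.1⟩
      have hsub : {n : ℕ | 1 ≤ n ∧ n ≤ N ∧ n ∈ E N ∧ ¬ Bdd n} ⊆ {n : ℕ | 1 ≤ n ∧ n ≤ N ∧ n ∈ E N ∧ ¬ ExcursionLE n (F n)} := by
        rintro n ⟨b1, b2, b3, b4⟩
        exact ⟨b1, b2, b3, fun h14 => b4 ⟨⌊F n⌋₊, fun k => Nat.le_floor (h14 k)⟩⟩
      unfold Count
      exact_mod_cast Set.ncard_le_ncard hsub hfin
    have h15 : ψ N * N < (1 - β) * κ / 2 * N := mul_lt_mul_of_pos_right h9 hNp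
    have h16 : (1 - β) * (κ * N) ≤ (1 - β) * Count N (fun _ => True) (E N) :=
      mul_le_mul_of_nonneg_left h7 hβ1.le
    linarith

end Pool.Agent.Results.MP_0a5adf_nt.ExcursionsAndPrimeFactors
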