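import Pool.Agent.Q34.Coll.Near
import Pool.Agent.Results.MP_0a5adf_nt.ExcursionsBeyondEntropy

/-!
# Excursions of the 3x+1 map near the members of thin sequences of real numbers

Let `T` be the `3x+1` function and `H` the binary entropy. There are `c > 1 - H(log_3 2) = 0.0500...` and
`B` with the following properties.

1. Let `v ≥ 1` be a sequence with exponent of convergence at most `τ` (for `v_n = (n + 1) ^ κ` this is
   `1 / κ`, for `v_n = b ^ n` it is `0`), `0 ≤ θ < 1` and `0 < η ≤ 1`. For all `α > 0` outside a set of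
   Hausdorff dimension at most `(1 - η + τ) / (1 - θ)` and all but finitely many `n`, all the
   integers `m` with `|m - α v_n| ≤ v_n ^ θ` reach a value `≤ m ^ (η / c)` within `B log m` steps, and stay
   `≤ m ^ (1 + η)` until then.
2. For all sequences `v`, `w`, `z` with `1 ≤ v_n`, `0 ≤ w_n ≤ v_n`, `1 ≤ z_n` and
   `∑ w_n (1 + log v_n) ^ 4 / z_n < ∞`, for almost every `α > 0` and all but finitely many `n`, all the
   integers `m ≥ 1` with `|m - α v_n| ≤ w_n` reach a value `≤ z_n ^ (1 / c)` within `B log m` steps, and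
   stay `≤ z_n m` until then.
3. In particular for all `b > 1` and almost every `α > 0` all but finitely many of the integers
   `m = ⌊α b ^ n⌋` reach a value `≤ n ^ (6 / c)` within `B log m` steps, and stay `≤ n ^ 6 m` until then.
-/

set_option autoImplicit false

open Filter

namespace Pool.Agent.Results.MP_0a5adf_nt.ExcursionsNearSequences

/-- the `3x+1` function -/
def T (n : ℕ) : ℕ := if n % 2 = 0 then n / 2 else (3 * n + 1) / 2

/-- the binary entropy function, in bits -/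
noncomputable def H (p : ℝ) : ℝ := Real.binEntropy p / Real.log 2

/-- within `B log n` steps the trajectory of `n` reaches a value `≤ y`, and it stays `≤ V` until then -/
def DescendsBelow (B y V : ℝ) (n : ℕ) : Prop :=
  ∃ k : ℕ, (k : ℝ) ≤ B * Real.log n ∧ ((T^[k] n : ℕ) : ℝ) ≤ y ∧ ∀ j ≤ k, ((T^[j] n : ℕ) : ℝ) ≤ V

/-- the exponent of convergence of the sequence `v` is at most `τ` -/
def ExpLe (v : ℕ → ℝ) (τ : ℝ) : Prop := ∀ t : ℝ, τ < t → Summable (fun n : ℕ => (v n) ^ (-t))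

lemma entropy_le (p : ℝ) : H p ≤ 1 := by
  have hl2 : 0 < Real.log 2 := Real.log_pos (by norm_num)
  unfold H
  rw [div_le_one hl2]
  exact Real.binEntropy_le_log_two

lemma mono {B y V y' V' : ℝ} {n : ℕ} (hy : y ≤ y') (hV : V ≤ V') (h : DescendsBelow B y V n) :
    DescendsBelow B y' V' n := by
  obtain ⟨k, h1, h2, h3⟩ := h
  exact ⟨k, h1, h2.trans hy, fun j hj => (h3 j hj).trans hV⟩

/-- the exceptions at the level `z` -/
def Bad (B c z : ℝ) (n : ℕ) : Prop :=
  ¬ DescendsBelow B ((max 1 z) ^ (1 / c)) (max 1 z * n) n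

lemma not_bad_one {B c z : ℝ} (hc : 0 < c) : ¬ Bad B c z 1 := by
  have h1 : (1 : ℝ) ≤ max 1 z := le_max_left _ _
  intro h
  refine h ⟨0, ?_, ?_, ?_⟩
  · simp
  · rw [Function.iterate_zero, id_eq, Nat.cast_one]
    exact Real.one_le_rpow h1 (by positivity)
  · intro j hj
    obtain rfl : j = 0 := by omega
    rw [Function.iterate_zero, id_eq, Nat.cast_one, mul_one]
    exact h1

/-- **The law with one parameter.** -/
lemma exists_law : ∃ c B C : ℝ, 1 - H (Real.log 2 / Real.log 3) < c ∧ 0 < c ∧ 0 < B ∧ 0 ≤ C ∧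
    Q34.Coll.Law (Bad B c) 4 1 C := by
  obtain ⟨c, B, C, hc, hB, hC, h⟩ := ExcursionsBeyondEntropy.result
  have hc0 : 0 < c := by
    refine lt_of_le_of_lt ?_ hc
    have : ExcursionsBeyondEntropy.H (Real.log 2 / Real.log 3) ≤ 1 := entropy_le _
    linarith
  have hl2 : 0 < Real.log 2 := Real.log_pos (by norm_num)
  refine ⟨c, B, 2 / Real.log 2 ^ 4 + 192 * C, hc, hc0, hB, by positivity, ?_, ?_⟩
  · intro y y' n hy hn hn'
    refine hn (mono ?_ ?_ hn')
    · exact Real.rpow_le_rpow (by positivity) (max_le_max_left _ hy) (by positivity)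
    · exact mul_le_mul_of_nonneg_right (max_le_max_left _ hy) (Nat.cast_nonneg n)
  · intro x z hx hz
    classical
    have hx0 : 0 < x := by linarith
    have hz0 : 0 < z := by linarith
    have hlx : Real.log 2 ≤ Real.log x := Real.log_le_log (by norm_num) hx
    have hlx0 : 0 < Real.log x := by linarith
    rw [Real.rpow_one]
    rcases lt_or_ge z 2 with hz2 | hz2
    · -- the trivial bound
      have h1 : (({n : ℕ | 1 ≤ n ∧ (n : ℝ) ≤ x ∧ Bad B c z n}.ncard : ℕ) : ℝ) ≤ x := by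
        have hsub : {n : ℕ | 1 ≤ n ∧ (n : ℝ) ≤ x ∧ Bad B c z n} ⊆
            ((Finset.Icc 1 ⌊x⌋₊ : Finset ℕ) : Set ℕ) := by
          rintro n ⟨h1, h2, -⟩
          rw [Finset.mem_coe, Finset.mem_Icc]
          exact ⟨h1, Nat.le_floor h2⟩
        have h2 := Set.ncard_le_ncard hsub (Finset.finite_toSet _)
        rw [Set.ncard_coe_finset, Nat.card_Icc, Nat.add_sub_cancel] at h2
        exact (by exact_mod_cast h2 : ((_ : ℕ) : ℝ) ≤ ((⌊x⌋₊ : ℕ) : ℝ)).trans
          (Nat.floor_le hx0.le)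
      refine h1.trans ?_
      have h2 : 1 ≤ Real.log x ^ 4 / Real.log 2 ^ 4 := by
        rw [le_div_iff₀ (by positivity), one_mul]
        exact pow_le_pow_left₀ hl2.le hlx 4
      have h3 : x / 2 ≤ x / z := div_le_div_of_nonneg_left hx0.le hz0 hz2.le
      calc x = 1 * (2 * (x / 2)) := by ring
        _ ≤ (Real.log x ^ 4 / Real.log 2 ^ 4) * (2 * (x / z)) :=
            mul_le_mul h2 (by linarith) (by positivity) (by positivity)
        _ = (2 / Real.log 2 ^ 4 + 0) * Real.log x ^ 4 * (x / z) := by ring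
        _ ≤ (2 / Real.log 2 ^ 4 + 192 * C) * Real.log x ^ 4 * (x / z) := by
            have : 0 ≤ 192 * C := by positivity
            gcongr
    · -- dyadic blocks
      set X := ⌊x⌋₊ with hX
      have hX2 : 2 ≤ X := Nat.le_floor (by exact_mod_cast hx)
      have hXx : (X : ℝ) ≤ x := Nat.floor_le hx0.le
      set L := Nat.log 2 X + 1 with hL
      set D : ℕ → Finset ℕ := fun j => (Q34.Coll.finite_le ((2 : ℝ) ^ (j + 1))
        (fun n => ¬ ExcursionsBeyondEntropy.DescendsBelow B (z ^ (1 / c)) (z * 2 ^ j) n)).toFinset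
        with hD
      have hsub : {n : ℕ | 1 ≤ n ∧ (n : ℝ) ≤ x ∧ Bad B c z n} ⊆
          (((Finset.range L).biUnion D : Finset ℕ) : Set ℕ) := by
        rintro n ⟨h1, h2, h3⟩
        rw [Finset.mem_coe, Finset.mem_biUnion]
        refine ⟨Nat.log 2 n, ?_, ?_⟩
        · rw [Finset.mem_range, hL]
          exact Nat.lt_succ_of_le (Nat.log_mono_right (Nat.le_floor h2))
        · rw [hD, Set.Finite.mem_toFinset]
          refine ⟨h1, ?_, fun h4 => h3 ?_⟩
          · have h5 := Nat.lt_pow_succ_log_self (b := 2) (by norm_num) n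
            exact_mod_cast h5.le
          · have h5 := Nat.pow_log_le_self 2 (x := n) (by omega)
            have h6 : ((2 : ℝ) ^ Nat.log 2 n) ≤ n := by exact_mod_cast h5
            rw [max_eq_right hz]
            exact mono le_rfl (mul_le_mul_of_nonneg_left h6 hz0.le) h4
      have h2X : ∀ j ∈ Finset.range L, ((2 : ℝ) ^ j) ≤ x := by
        intro j hj
        rw [Finset.mem_range, hL] at hj
        have h1 : 2 ^ j ≤ X := (Nat.pow_le_pow_right (by norm_num) (by omega)).trans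
          (Nat.pow_log_le_self 2 (by omega))
        exact le_trans (by exact_mod_cast h1) hXx
      have hblock : ∀ j ∈ Finset.range L, ((D j).card : ℝ) ≤
          96 * C * Real.log x ^ 4 / z * 2 ^ j := by
        intro j hj
        have h2j : (0 : ℝ) < 2 ^ j := by positivity
        have h1 := h ((2 : ℝ) ^ (j + 1)) (z ^ (1 / c)) (z * 2 ^ j)
          (by rw [pow_succ]; linarith [one_le_pow₀ (n := j) (show (1 : ℝ) ≤ 2 by norm_num)])
          (Real.one_le_rpow hz (by positivity))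
          (by rw [pow_succ]; nlinarith)
        have h2 : ExcursionsBeyondEntropy.count (fun n =>
            ¬ ExcursionsBeyondEntropy.DescendsBelow B (z ^ (1 / c)) (z * 2 ^ j) n)
            ((2 : ℝ) ^ (j + 1)) = ((D j).card : ℝ) := by
          unfold ExcursionsBeyondEntropy.count
          rw [Set.ncard_eq_toFinset_card _ (Q34.Coll.finite_le _ _)]
        rw [h2] at h1
        refine h1.trans ?_
        have h3 : (z ^ (1 / c)) ^ c = z := by
          rw [← Real.rpow_mul hz0.le, one_div_mul_cancel hc0.ne', Real.rpow_one]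
        have h4 : Real.log (2 ^ (j + 1)) ≤ 2 * Real.log x := by
          have h5 : Real.log (2 ^ (j + 1)) ≤ Real.log (2 * x) := by
            refine Real.log_le_log (by positivity) ?_
            rw [pow_succ]
            linarith [h2X j hj]
          rw [Real.log_mul (by norm_num) hx0.ne'] at h5
          linarith
        have h40 : (0 : ℝ) ≤ Real.log (2 ^ (j + 1)) :=
          Real.log_nonneg (one_le_pow₀ (by norm_num))
        have h5 : ((2 : ℝ) ^ (j + 1)) ^ 2 / (z * 2 ^ j) + 2 ^ (j + 1) / (z ^ (1 / c)) ^ c =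
            6 * 2 ^ j / z := by
          rw [h3, pow_succ]
          field_simp
          ring
        rw [h5]
        calc C * Real.log (2 ^ (j + 1)) ^ 4 * (6 * 2 ^ j / z)
            ≤ C * (2 * Real.log x) ^ 4 * (6 * 2 ^ j / z) := by
              refine mul_le_mul_of_nonneg_right (mul_le_mul_of_nonneg_left
                (pow_le_pow_left₀ h40 h4 4) hC.le) (by positivity)
          _ = _ := by ring
      have hgeo : ∑ j ∈ Finset.range L, (2 : ℝ) ^ j ≤ 2 * x := by
        rw [geom_sum_eq (by norm_num), hL, pow_succ]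
        have h1 : 2 ^ Nat.log 2 X ≤ X := Nat.pow_log_le_self 2 (by omega)
        have h2 : ((2 : ℝ) ^ Nat.log 2 X) ≤ X := by exact_mod_cast h1
        norm_num
        linarith
      have hcard : (({n : ℕ | 1 ≤ n ∧ (n : ℝ) ≤ x ∧ Bad B c z n}.ncard : ℕ) : ℝ) ≤
          ∑ j ∈ Finset.range L, ((D j).card : ℝ) := by
        have h1 := Set.ncard_le_ncard hsub (Finset.finite_toSet _)
        rw [Set.ncard_coe_finset] at h1
        exact_mod_cast h1.trans Finset.card_biUnion_le
      calc (({n : ℕ | 1 ≤ n ∧ (n : ℝ) ≤ x ∧ Bad B c z n}.ncard : ℕ) : ℝ)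
          ≤ ∑ j ∈ Finset.range L, ((D j).card : ℝ) := hcard
        _ ≤ ∑ j ∈ Finset.range L, 96 * C * Real.log x ^ 4 / z * 2 ^ j :=
            Finset.sum_le_sum hblock
        _ = 96 * C * Real.log x ^ 4 / z * ∑ j ∈ Finset.range L, 2 ^ j := by
            rw [Finset.mul_sum]
        _ ≤ 96 * C * Real.log x ^ 4 / z * (2 * x) :=
            mul_le_mul_of_nonneg_left hgeo (by positivity)
        _ = (0 + 192 * C) * Real.log x ^ 4 * (x / z) := by ring
        _ ≤ (2 / Real.log 2 ^ 4 + 192 * C) * Real.log x ^ 4 * (x / z) := by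
            have : 0 ≤ 2 / Real.log 2 ^ 4 := by positivity
            gcongr

/-- **Theorem.** -/
theorem result : ∃ c B : ℝ, 1 - H (Real.log 2 / Real.log 3) < c ∧ 0 < c ∧ 0 < B ∧
    -- 1. near real sequences
    (∀ η : ℝ, 0 < η → η ≤ 1 →
      ∀ (v : ℕ → ℝ) (τ θ : ℝ), (∀ n, 1 ≤ v n) → 0 ≤ τ → ExpLe v τ → 0 ≤ θ → θ < 1 →
      ∃ E : Set ℝ, dimH E ≤ ENNReal.ofReal ((1 - η + τ) / (1 - θ)) ∧
        ∀ α : ℝ, 0 < α → α ∉ E → ∃ n₀ : ℕ, ∀ n : ℕ, n₀ ≤ n → ∀ m : ℕ,
          |(m : ℝ) - α * v n| ≤ (v n) ^ θ → 0 < m ∧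
            DescendsBelow B ((m : ℝ) ^ (η / c)) ((m : ℝ) ^ (1 + η)) m) ∧
    -- 2. almost all `α`
    (∀ v w z : ℕ → ℝ, (∀ n, 1 ≤ v n) → (∀ n, 0 ≤ w n) → (∀ n, w n ≤ v n) → (∀ n, 1 ≤ z n) →
      Summable (fun n => w n * (1 + Real.log (v n)) ^ 4 / z n) →
      ∀ᵐ α : ℝ, 0 < α → ∀ᶠ n in atTop, ∀ m : ℕ, 1 ≤ m → |(m : ℝ) - α * v n| ≤ w n →
        DescendsBelow B ((z n) ^ (1 / c)) (z n * m) m) ∧
    -- 3. geometric sequences
    (∀ b : ℝ, 1 < b → ∀ᵐ α : ℝ, 0 < α → ∀ᶠ n : ℕ in atTop,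
      DescendsBelow B ((n : ℝ) ^ (6 / c)) ((n : ℝ) ^ 6 * (⌊α * b ^ n⌋₊ : ℝ)) ⌊α * b ^ n⌋₊) ∧
    -- examples of sequences
    (∀ κ : ℝ, 0 < κ → ExpLe (fun n : ℕ => ((n : ℝ) + 1) ^ κ) (1 / κ)) ∧
    (∀ b : ℝ, 1 < b → ExpLe (fun n : ℕ => b ^ n) 0) := by
  obtain ⟨c, B, C, hc, hc0, hB, hC, hL⟩ := exists_law
  have key : ∀ v w z : ℕ → ℝ, (∀ n, 1 ≤ v n) → (∀ n, 0 ≤ w n) → (∀ n, w n ≤ v n) →
      (∀ n, 1 ≤ z n) → Summable (fun n => w n * (1 + Real.log (v n)) ^ 4 / z n) →
      ∀ᵐ α : ℝ, 0 < α → ∀ᶠ n in atTop, ∀ m : ℕ, 1 ≤ m → |(m : ℝ) - α * v n| ≤ w n →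
        DescendsBelow B ((z n) ^ (1 / c)) (z n * m) m := by
    intro v w z hv hw0 hw hz hsum
    have h1 := hL.ae hC hv hw0 hw hz (by simpa only [Real.rpow_one] using hsum)
    filter_upwards [h1] with α hα hα0
    filter_upwards [hα hα0] with n hn m hm1 hm2
    have h2 := not_not.1 (hn m hm1 hm2)
    rwa [max_eq_right (hz n)] at h2
  refine ⟨c, B, hc, hc0, hB, fun η hη hη1 v τ θ hv hτ hE _ hθ1 => ?_, key, fun b hb => ?_,
    fun κ hκ => Y854.GM.expLe_pow κ hκ, fun b hb => Y854.GM.expLe_geom b hb⟩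
  · obtain ⟨E, hE1, hE2⟩ := hL.windows hC hη.le (by linarith : 1 * η ≤ 1) hv hτ hE hθ1
    rw [one_mul] at hE1
    refine ⟨E, hE1, fun α hα hαE => ?_⟩
    obtain ⟨n₀, hn⟩ := hE2 α hα hαE
    refine ⟨n₀, fun n hn1 m hm => ⟨(hn n hn1 m hm).1, ?_⟩⟩
    obtain ⟨h1, h2⟩ := hn n hn1 m hm
    have h3 := not_not.1 h2
    have hm1 : (1 : ℝ) ≤ m := by exact_mod_cast h1
    have hm0 : (0 : ℝ) < m := by linarith
    rw [max_eq_right (Real.one_le_rpow hm1 hη.le), ← Real.rpow_mul hm0.le] at h3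
    refine mono ?_ ?_ h3
    · rw [mul_one_div]
    · rw [Real.rpow_add hm0, Real.rpow_one, mul_comm]
  · have hb0 : 0 < b := by linarith
    have hlb : 0 < Real.log b := Real.log_pos hb
    set z : ℕ → ℝ := fun n => (max 1 (n : ℝ)) ^ 6 with hz
    have hmax : ∀ n : ℕ, (1 : ℝ) ≤ max 1 (n : ℝ) := fun n => le_max_left _ _
    have hsum : Summable fun n : ℕ =>
        (fun _ => (1 : ℝ)) n * (1 + Real.log ((fun n => b ^ n) n)) ^ 4 / z n := by
      have h2 : Summable fun n : ℕ => (1 + Real.log b) ^ 4 * (1 / ((n : ℝ)) ^ 2) :=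
        (Real.summable_one_div_nat_pow.2 (by norm_num)).mul_left _
      refine Summable.of_norm_bounded_eventually_nat h2 ?_
      filter_upwards [eventually_ge_atTop 1] with n hn
      have hn1 : (1 : ℝ) ≤ n := by exact_mod_cast hn
      have hn0 : (0 : ℝ) < n := by linarith
      have hm : max 1 (n : ℝ) = n := max_eq_right hn1
      rw [hz]
      dsimp only
      rw [hm, Real.log_pow, one_mul, Real.norm_of_nonneg (by positivity)]
      have h4 : 1 + (n : ℝ) * Real.log b ≤ (1 + Real.log b) * n := by nlinarith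
      calc (1 + (n : ℝ) * Real.log b) ^ 4 / (n : ℝ) ^ 6
          ≤ ((1 + Real.log b) * n) ^ 4 / (n : ℝ) ^ 6 :=
            div_le_div_of_nonneg_right (pow_le_pow_left₀ (by positivity) h4 4) (by positivity)
        _ = (1 + Real.log b) ^ 4 * (1 / (n : ℝ) ^ 2) := by field_simp
    have h2 := key (fun n => b ^ n) (fun _ => 1) z
      (fun n => one_le_pow₀ hb.le) (fun _ => zero_le_one) (fun n => one_le_pow₀ hb.le)
      (fun n => one_le_pow₀ (hmax n)) hsum
    filter_upwards [h2] with α hα hα0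
    have hbig : ∀ᶠ n : ℕ in atTop, 1 ≤ α * b ^ n := by
      have h3 : Tendsto (fun n : ℕ => α * b ^ n) atTop atTop :=
        (tendsto_pow_atTop_atTop_of_one_lt hb).const_mul_atTop hα0
      exact h3.eventually_ge_atTop 1
    filter_upwards [hα hα0, hbig, eventually_ge_atTop 1] with n hn hn1 hn2
    have hn3 : (1 : ℝ) ≤ n := by exact_mod_cast hn2
    have hfl : 1 ≤ ⌊α * b ^ n⌋₊ := Nat.le_floor (by exact_mod_cast hn1)
    have h3 := hn ⌊α * b ^ n⌋₊ hfl (by
      have h4 := Nat.floor_le (show 0 ≤ α * b ^ n by linarith)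
      have h5 := Nat.lt_floor_add_one (α * b ^ n)
      rw [abs_le]
      constructor <;> linarith)
    rw [hz] at h3
    dsimp only at h3
    rw [max_eq_right hn3] at h3
    have h5 : ((n : ℝ) ^ 6) ^ (1 / c) = (n : ℝ) ^ (6 / c) := by
      rw [← Real.rpow_natCast, ← Real.rpow_mul (by linarith), mul_one_div]
      norm_num
    rwa [h5] at h3

end Pool.Agent.Results.MP_0a5adf_nt.ExcursionsNearSequences
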