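import Pool.Agent.Q49.EX.F
import Pool.Agent.Q49.WA.Ev
import Pool.Agent.Q49.PE.Win

set_option autoImplicit false

/-!
# Waring's problem with one summand of small excursion

Let there be given families of integers of size at most `N`, at least `2 t` of which have a `t`-th additive
energy bounded by a constant times that of a random family; for example the values of given nonconstant
polynomials at the first few integers. For EVERY integer `n` of size `O(N)` the maximum excursions `t(x)` of the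
positive integers `x` for which `n` is the sum of `x` and of one member of each family are governed by
the first `K` parities of the trajectory of `x` (a condition on `x` modulo `2 ^ K`): the number of the
representations with `t(x) ≤ lam x` is `β` times the number of those for which the first `K` parities allow
this, `β` the density of the integers of finite excursion, up to `ε` times the number of all choices. The same is
true inside every invariant set. Consequently, for every `k` there are `r` and `lam` such that every large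
integer is the sum of `r` positive `k`-th powers and of a positive integer `x` with `t(x) ≤ lam x`.

Method: Fourier uniformity of the excursions, uniformly in the frequency, the circle method on a cyclic group
(`Pool/Agent/Q49/WA`), bounds of moments of Weyl sums (starting file `Pool/Agent/Y834/CD/Poly.lean`).
-/

namespace Pool.Agent.Results.MP_0a5adf_nt.WaringWithSmallExcursion

open Filter Topology

/-- the accelerated `3x+1` map -/
def T (n : ℕ) : ℕ := if n % 2 = 0 then n / 2 else (3 * n + 1) / 2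

/-- `t(n) < ∞` -/
def FiniteExcursion (n : ℕ) : Prop := ∃ M : ℕ, ∀ k, T^[k] n ≤ M

/-- `t(n) ≤ c` -/
def ExcursionLE (n : ℕ) (c : ℝ) : Prop := ∀ k, ((T^[k] n : ℕ) : ℝ) ≤ c

/-- A positive integer `n` is in `S` if and only if `T n` is. -/
def Invariant (S : Set ℕ) : Prop := ∀ n : ℕ, 1 ≤ n → (n ∈ S ↔ T n ∈ S)

/-- the positive integers with the property `P` have the natural density `δ` -/
def HasDensity (P : ℕ → Prop) (δ : ℝ) : Prop :=
  Tendsto (fun N : ℕ => ({n : ℕ | 1 ≤ n ∧ n ≤ N ∧ P n}.ncard : ℝ) / N) atTop (𝓝 δ)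

/-- the number of odd terms among `n, T n, ..., T^(k-1) n` -/
def odds (k n : ℕ) : ℕ := ((Finset.range k).filter fun i => T^[i] n % 2 = 1).card

/-- `3 ^ (number of the odd terms among the first k) < lam * 2 ^ k` for `1 ≤ k ≤ K`; this depends on
`n` modulo `2 ^ K` only. -/
def Safe (K : ℕ) (lam : ℝ) (n : ℕ) : Prop := ∀ k, 1 ≤ k → k ≤ K → (3 : ℝ) ^ odds k n < lam * 2 ^ k

/-- The number of the pairs of `t`-tuples of members of the family `a` with the same sum. -/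
noncomputable def energy (t : ℕ) {L : ℕ} (a : Fin L → ℤ) : ℕ :=
  {p : (Fin t → Fin L) × (Fin t → Fin L) | ∑ i, a (p.1 i) = ∑ i, a (p.2 i)}.ncard

/-- The energy of the family `a` is at most `C L ^ (2 t) / N`. -/
def Spread (t : ℕ) (C : ℝ) (N : ℕ) {L : ℕ} (a : Fin L → ℤ) : Prop :=
  (energy t a : ℝ) ≤ C * (L : ℝ) ^ (2 * t) / N

/-- The number of the choices `v` of one member `a j (v j)` of each family such that the difference
`x` of `n` and the sum of these members is positive and has the property `Q`. -/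
noncomputable def reps (Q : ℕ → Prop) (n : ℤ) {r : ℕ} {L : Fin r → ℕ} (a : ∀ j, Fin (L j) → ℤ) : ℕ :=
  {v : ∀ j, Fin (L j) | 0 < n - ∑ j, a j (v j) ∧ Q (n - ∑ j, a j (v j)).toNat}.ncard

/-- The values of `P` at `1, ..., L`. -/
noncomputable def vals (P : Polynomial ℤ) (L : ℕ) : Fin L → ℤ :=
  fun m => P.eval (((m : ℕ) + 1 : ℕ) : ℤ)

/-- The number of the `r`-tuples of positive integers `m j` with `|P (m j)| ≤ n` for which the
difference `x` of `n` and the sum of the `P (m j)` is positive and has the property `Q`. -/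
noncomputable def polyReps (Q : ℕ → Prop) (n : ℕ) (P : Polynomial ℤ) (r : ℕ) : ℕ :=
  {m : Fin r → ℕ | (∀ j, 1 ≤ m j ∧ |P.eval (m j : ℤ)| ≤ n) ∧ 0 < (n : ℤ) - ∑ j, P.eval (m j : ℤ) ∧
    Q ((n : ℤ) - ∑ j, P.eval (m j : ℤ)).toNat}.ncard

/-! ### proofs -/

open Pool.Agent.Q49.EX (Ec)
open Pool.Agent.H499R2.ND (AK rK Bdd Tn)
open Pool.Agent.Q49.WA (repsQ polyRepsQ)

theorem odd_eq (k n : ℕ) : odds k n = Pool.Agent.Helper894.Collatz.od k n := by
  unfold odds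
  induction k with
  | zero => simp [Pool.Agent.Helper894.Collatz.od]
  | succ k ih =>
    rw [Finset.range_add_one, Finset.filter_insert, Pool.Agent.Helper894.Collatz.od_succ, ← ih,
      Pool.Agent.H499R2.ND.Tn_eq]
    have e : Tn^[k] n = T^[k] n := rfl
    rw [e]
    rcases Nat.mod_two_eq_zero_or_one (T^[k] n) with h | h
    · rw [if_neg (by omega), h, add_zero]
    · rw [if_pos h, h, Finset.card_insert_of_notMem (by simp)]

theorem safe_eq (K : ℕ) (lam : ℝ) : Safe K lam = AK K lam := by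
  funext n
  unfold Safe AK
  simp only [odd_eq]

theorem reps_eq (Q : ℕ → Prop) (n : ℤ) {r : ℕ} {L : Fin r → ℕ} (a : ∀ j, Fin (L j) → ℤ) :
    reps Q n a = repsQ (fun x => Q x.toNat) n a := rfl

theorem exc_eq (n : ℕ) (lam : ℝ) : ExcursionLE n (lam * n) = Ec lam n := rfl

theorem spread_iff (t : ℕ) (C : ℝ) (N : ℕ) {L : ℕ} (a : Fin L → ℤ) :
    Spread t C N a ↔ Pool.Agent.Results.MP_d02c56_nt.WaringProblem.Spread t C N a := Iff.rfl

theorem dens (S : Set ℕ) (hS : Invariant S) : ∃ δ : ℝ, 0 ≤ δ ∧ δ ≤ 1 ∧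
    HasDensity (fun n => n ∈ S ∧ FiniteExcursion n) δ ∧ ((∃ x ∈ S, 1 ≤ x ∧ FiniteExcursion x) → 0 < δ) := by
  obtain ⟨l, l0, l1, l2, l3, _⟩ := Pool.Agent.H499R2.ND.nat_density (P := fun n => n ∈ S ∧ Bdd n) (fun n hn =>
    and_congr (hS n hn) (Pool.Agent.H499R2.ND.Bdd_inv n))
  exact ⟨l, l0, l1, l2, fun ⟨x, h1, h2, h3⟩ => l3.2 ⟨x, h2, h1, h3⟩⟩

open scoped Classical in
/-- Fourier uniformity in the form needed -/
theorem fourier {lam : ℝ} (hl : 1 ≤ lam) {ε : ℝ} (hε : 0 < ε) (hε1 : ε ≤ 1) :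
    ∃ K₀ : ℕ, ∀ K : ℕ, K₀ ≤ K → ∃ N₀ : ℕ, ∀ S : Set ℕ, Invariant S → ∀ δ : ℝ,
    HasDensity (fun n => n ∈ S ∧ FiniteExcursion n) δ → ∀ Q Q' : ℤ → Prop, (∀ n : ℕ, Q n ↔ n ∈ S ∧ Ec lam n) →
    (∀ n : ℕ, Q' n ↔ AK K lam n) → ∀ N : ℕ, N₀ ≤ N → ∀ α : ℝ,
    ‖∑ n ∈ Finset.Icc 1 N, (((if Q (n : ℕ) then (1 : ℝ) else 0)
      - δ * (if Q' (n : ℕ) then 1 else 0) : ℝ) : ℂ)
      * Complex.exp (2 * Real.pi * (α * n : ℝ) * Complex.I)‖ ≤ ε * N := by
  obtain ⟨K0, hK0⟩ := Pool.Agent.Q49.EX.fourier_exc hl hε hε1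
  refine ⟨K0, fun K hK => ?_⟩
  obtain ⟨N0, hN0⟩ := hK0 K hK
  refine ⟨N0, fun S hS δ hδ Q Q' hQ hQ' N hN α => ?_⟩
  have h1 := hN0 (fun n => n ∈ S) hS δ hδ N hN (2 * Real.pi * α)
  refine le_trans (le_of_eq ?_) h1
  congr 1
  apply Finset.sum_congr rfl
  intro n _
  have e2 : (2 * (Real.pi : ℂ) * ((α * n : ℝ) : ℂ) * Complex.I) = ((2 * Real.pi * α * n : ℝ) : ℂ) * Complex.I := by
    push_cast; ring
  rw [e2]
  congr 1
  by_cases hA : AK K lam n
  · by_cases hp : n ∈ S ∧ Ec lam n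
    · rw [if_pos ((hQ n).2 hp), if_pos hp, if_pos ((hQ' n).2 hA), if_pos hA]; push_cast; ring
    · rw [if_neg (fun h => hp ((hQ n).1 h)), if_neg hp, if_pos ((hQ' n).2 hA), if_pos hA]; push_cast; ring
  · by_cases hp : n ∈ S ∧ Ec lam n
    · rw [if_pos ((hQ n).2 hp), if_pos hp, if_neg (fun h => hA ((hQ' n).1 h)), if_neg hA]; push_cast; ring
    · rw [if_neg (fun h => hp ((hQ n).1 h)), if_neg hp, if_neg (fun h => hA ((hQ' n).1 h)), if_neg hA]; push_cast; ring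

theorem general (r t B : ℕ) (ht : 1 ≤ t) (C : ℝ) {lam : ℝ} (hl : 1 ≤ lam) {ε : ℝ} (hε : 0 < ε) :
    ∃ K₀ : ℕ, ∀ K : ℕ, K₀ ≤ K → ∃ N₀ : ℕ, ∀ S : Set ℕ, Invariant S → ∀ δ : ℝ,
      HasDensity (fun n => n ∈ S ∧ FiniteExcursion n) δ →
      ∀ N : ℕ, N₀ ≤ N → ∀ (L : Fin r → ℕ) (a : ∀ j, Fin (L j) → ℤ), (∀ j i, |a j i| ≤ N) →
      ∀ J : Finset (Fin r), 2 * t ≤ J.card → (∀ j ∈ J, Spread t C N (a j)) →
      ∀ n : ℤ, |n| ≤ B * N →
        |(reps (fun x => x ∈ S ∧ ExcursionLE x (lam * x)) n a : ℝ) - δ * reps (Safe K lam) n a| ≤ ε * ∏ j, (L j : ℝ) := by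
  obtain ⟨ε₁, h1, h1', W, hW, H⟩ := Pool.Agent.Q49.WA.compare (r := r) (B := B) ht (le_max_right C 0) hε
  obtain ⟨K₀, hK₀⟩ := fourier hl h1 h1'
  refine ⟨K₀, fun K hK => ?_⟩
  obtain ⟨N₀, hN₀⟩ := hK₀ K hK
  refine ⟨N₀ + 1, fun S hS δ hδ N hN L a ha J hJ hsp n hn => ?_⟩
  rw [safe_eq, reps_eq, reps_eq]
  simp only [exc_eq]
  have hNW : N ≤ W * N := Nat.le_mul_of_pos_left _ (by omega)
  have hF := hN₀ S hS δ hδ (fun x : ℤ => x.toNat ∈ S ∧ Ec lam x.toNat) (fun x : ℤ => AK K lam x.toNat)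
    (fun n => by simp only [Int.toNat_natCast]) (fun n => by simp only [Int.toNat_natCast]) (W * N) (by omega)
  refine H N (by omega) (fun x : ℤ => x.toNat ∈ S ∧ Ec lam x.toNat) (fun x : ℤ => AK K lam x.toNat) δ hF
    L a ha J hJ (fun j hj => ?_) n hn
  have h3 := hsp j hj
  unfold Pool.Agent.Results.MP_d02c56_nt.WaringProblem.Spread
  refine le_trans h3 ?_
  apply div_le_div_of_nonneg_right _ (Nat.cast_nonneg _)
  exact mul_le_mul_of_nonneg_right (le_max_left _ _) (by positivity)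

/-- every large integer -/
theorem every {P : Polynomial ℤ} (hP : 1 ≤ P.natDegree) : ∃ r₀ : ℕ, 1 ≤ r₀ ∧ ∀ r : ℕ, r₀ ≤ r →
    ∃ lam₀ : ℝ, 1 ≤ lam₀ ∧ ∀ lam : ℝ, lam₀ ≤ lam → ∀ S : Set ℕ, Invariant S →
    (∃ x ∈ S, 1 ≤ x ∧ FiniteExcursion x) → ∃ κ : ℝ, 0 < κ ∧
    ∃ n₀ : ℕ, ∀ n : ℕ, n₀ ≤ n → κ * (n : ℝ) ^ ((r : ℝ) / P.natDegree) ≤
      polyReps (fun x => x ∈ S ∧ ExcursionLE x (lam * x)) n P r := by
  classical
  obtain ⟨t₀, C, hC, hsp⟩ := Pool.Agent.Results.MP_d02c56_nt.WaringProblem.poly_spread P hP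
  set t : ℕ := t₀ + 1 with ht
  refine ⟨2 * t, by omega, fun r hr => ?_⟩
  obtain ⟨B, hB1, hbox⟩ := Pool.Agent.Q49.WA.boxes hP (r := r) (by omega)
  have hBR : (0 : ℝ) < B := by exact_mod_cast hB1
  obtain ⟨D, hD, W, hW, hfew⟩ := Pool.Agent.Q49.WA.few (r := r) (t := t) (B := B) (by omega) (K := C * B) (by positivity)
  have hWR : (0 : ℝ) < W := by exact_mod_cast hW
  refine ⟨4 * W * D + 1, by nlinarith [mul_pos hWR hD], fun lam hlam S hS hne => ?_⟩
  have hWD : 0 < W * D := mul_pos hWR hD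
  have hl : 1 ≤ lam := by linarith
  have hl0 : 0 < lam := by linarith
  obtain ⟨δ, _, _, hδ, hδpos⟩ := dens S hS
  have hδ0 := hδpos hne
  obtain ⟨K₀, hK₀⟩ := general r t B (by omega) (C * B) hl (show 0 < δ / 4 by positivity)
  obtain ⟨N₀, hN₀⟩ := hK₀ K₀ le_rfl
  set V : ℕ := ⌈4 * D * 2 ^ K₀⌉₊ with hV
  refine ⟨δ / 4 * (1 / (B : ℝ)) ^ ((r : ℝ) / P.natDegree), by positivity, N₀ + B + V + 1, fun n hn => ?_⟩
  obtain ⟨L, hL1, hL3, hval, hpos, hfin⟩ := hbox n (by omega)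
  have hnR : (0 : ℝ) < n := by exact_mod_cast (by omega : 0 < n)
  refine hfin (fun x => (fun x => x ∈ S ∧ ExcursionLE x (lam * x)) x.toNat) (δ / 4) (by positivity) ?_
  have ha : ∀ (j : Fin r) (i : Fin L), |(fun _ : Fin r => vals P L) j i| ≤ (n : ℤ) := fun j i =>
    hval ((i : ℕ) + 1) (Nat.le_add_left 1 _) i.2
  have hspr : ∀ j : Fin r, Spread t (C * B) n ((fun _ : Fin r => vals P L) j) := fun j =>
    hsp t (by omega) B L n (by omega) hL3
  have hnB : |(n : ℤ)| ≤ B * n := by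
    rw [abs_of_nonneg (Nat.cast_nonneg _)]
    exact_mod_cast Nat.le_mul_of_pos_left _ hB1
  have h1 := hN₀ S hS δ hδ n (by omega) (fun _ => L) (fun _ => vals P L) ha Finset.univ
    (by rw [Finset.card_univ, Fintype.card_fin]; exact hr) (fun j _ => hspr j) n hnB
  -- the unsafe choices
  have h2 := hfew n (by omega) (fun x => ¬ AK K₀ lam x.toNat) (W / lam + 2 ^ K₀ / n) (by
    have h3 := Pool.Agent.Q49.EX.unsafe_card hl0 K₀ (W * n)
    simp only [Int.toNat_natCast]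
    refine h3.trans (le_of_eq ?_)
    push_cast
    field_simp) (fun _ => L) (fun _ => vals P L) ha Finset.univ
    (by rw [Finset.card_univ, Fintype.card_fin]; exact hr) (fun j _ => hspr j) n hnB
  simp only [Finset.prod_const, Finset.card_univ, Fintype.card_fin] at h1 h2
  have hLr : (0 : ℝ) ≤ (L : ℝ) ^ r := by positivity
  have h3 : (W / lam + 2 ^ K₀ / n) * D ≤ 1 / 2 := by
    have a1 : W / lam * D ≤ 1 / 4 := by
      rw [div_mul_eq_mul_div, div_le_iff₀ hl0]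
      linarith
    have a2 : (2 : ℝ) ^ K₀ / n * D ≤ 1 / 4 := by
      rw [div_mul_eq_mul_div, div_le_iff₀ hnR]
      have a3 : 4 * D * 2 ^ K₀ ≤ (n : ℝ) :=
        (Nat.le_ceil _).trans (by exact_mod_cast (by omega : ⌈4 * D * 2 ^ K₀⌉₊ ≤ n))
      linarith
    linarith
  have hall : (repsQ (fun _ => True) (n : ℤ) (fun _ : Fin r => vals P L) : ℝ) = (L : ℝ) ^ r := by
    unfold repsQ
    have : {v : ∀ _j : Fin r, Fin L | 0 < (n : ℤ) - ∑ j, vals P L (v j) ∧ True} = Set.univ := by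
      ext v
      simp only [Set.mem_ofPred_eq, Set.mem_univ, and_true, iff_true]
      exact hpos v
    rw [this, Set.ncard_univ, Nat.card_eq_fintype_card, Fintype.card_fun, Fintype.card_fin, Fintype.card_fin]
    push_cast
    rfl
  have hsplit : (repsQ (fun _ => True) (n : ℤ) (fun _ : Fin r => vals P L) : ℝ)
      = reps (Safe K₀ lam) (n : ℤ) (fun _ : Fin r => vals P L)
        + repsQ (fun x => ¬ AK K₀ lam x.toNat) (n : ℤ) (fun _ : Fin r => vals P L) := by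
    rw [safe_eq, reps_eq, Pool.Agent.Q49.WA.repsQ_sum, Pool.Agent.Q49.WA.repsQ_sum, Pool.Agent.Q49.WA.repsQ_sum,
      ← Finset.sum_add_distrib]
    apply Finset.sum_congr rfl; intro v _
    by_cases hx : 0 < (n : ℤ) - ∑ j, (fun _ : Fin r => vals P L) j (v j)
    · by_cases hA : AK K₀ lam ((n : ℤ) - ∑ j, (fun _ : Fin r => vals P L) j (v j)).toNat
      · rw [if_pos hx, if_pos trivial, if_pos hx, if_pos hA, if_pos hx, if_neg (not_not.2 hA)]; norm_num
      · rw [if_pos hx, if_pos trivial, if_pos hx, if_neg hA, if_pos hx, if_pos hA]; norm_num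
    · rw [if_neg hx, if_neg hx, if_neg hx]; norm_num
  have h4 : 1 / 2 * (L : ℝ) ^ r ≤ reps (Safe K₀ lam) (n : ℤ) (fun _ : Fin r => vals P L) := by
    have h5 := h2.trans (mul_le_mul_of_nonneg_right h3 hLr)
    linarith
  have h6 := (abs_le.1 h1).1
  have h7 : δ * (1 / 2 * (L : ℝ) ^ r) ≤ δ * reps (Safe K₀ lam) (n : ℤ) (fun _ : Fin r => vals P L) :=
    mul_le_mul_of_nonneg_left h4 hδ0.le
  change δ / 4 * (L : ℝ) ^ r ≤
    (reps (fun x => x ∈ S ∧ ExcursionLE x (lam * x)) (n : ℤ) (fun _ : Fin r => vals P L) : ℝ)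
  linarith

theorem powers {k : ℕ} (hk : 1 ≤ k) : ∃ r : ℕ, 1 ≤ r ∧ ∃ lam : ℝ, 1 ≤ lam ∧ ∀ S : Set ℕ, Invariant S →
    (∃ x ∈ S, 1 ≤ x ∧ FiniteExcursion x) → ∃ n₀ : ℕ, ∀ n : ℕ, n₀ ≤ n → ∃ x ∈ S, 1 ≤ x ∧ ExcursionLE x (lam * x) ∧
      ∃ m : Fin r → ℕ, (∀ j, 1 ≤ m j) ∧ n = x + ∑ j, m j ^ k := by
  have hdeg : (Polynomial.X ^ k : Polynomial ℤ).natDegree = k := Polynomial.natDegree_X_pow k
  obtain ⟨r, hr, H⟩ := every (P := Polynomial.X ^ k) (by rw [hdeg]; exact hk)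
  obtain ⟨lam, hl, h⟩ := H r le_rfl
  refine ⟨r, hr, lam, hl, fun S hS hne => ?_⟩
  obtain ⟨κ, hκ, n₀, h⟩ := h lam le_rfl S hS hne
  refine ⟨n₀ + 1, fun n hn => ?_⟩
  have h1 := h n (by omega)
  have hn0 : (0 : ℝ) < n := by exact_mod_cast (by omega : 0 < n)
  have h2 : (0 : ℝ) < polyReps (fun x => x ∈ S ∧ ExcursionLE x (lam * x)) n (Polynomial.X ^ k) r :=
    lt_of_lt_of_le (by positivity) h1
  have h3 : {m : Fin r → ℕ | (∀ j, 1 ≤ m j ∧ |(Polynomial.X ^ k : Polynomial ℤ).eval (m j : ℤ)| ≤ n) ∧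
      0 < (n : ℤ) - ∑ j, (Polynomial.X ^ k : Polynomial ℤ).eval (m j : ℤ) ∧
      (fun x : ℕ => x ∈ S ∧ ExcursionLE x (lam * x))
        ((n : ℤ) - ∑ j, (Polynomial.X ^ k : Polynomial ℤ).eval (m j : ℤ)).toNat}.Nonempty := by
    apply Set.nonempty_of_ncard_ne_zero
    intro h0
    unfold polyReps at h2
    rw [h0] at h2
    simp at h2
  obtain ⟨m, hm1, hm2, hm3, hm4⟩ := h3
  simp only [Polynomial.eval_pow, Polynomial.eval_X] at hm1 hm2 hm3 hm4
  refine ⟨_, hm3, by omega, hm4, m, fun j => (hm1 j).1, ?_⟩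
  have e : (n : ℤ) = ((((n : ℤ) - ∑ j, (m j : ℤ) ^ k).toNat : ℕ) : ℤ) + ∑ j, (m j : ℤ) ^ k := by
    rw [Int.toNat_of_nonneg hm2.le]; ring
  have e2 : ((∑ j, m j ^ k : ℕ) : ℤ) = ∑ j, (m j : ℤ) ^ k := by push_cast; rfl
  rw [← e2] at e
  rw [← e2]
  exact_mod_cast e

/-- (1) For all `r`, `t ≥ 1`, `B`, `C`, `lam ≥ 1`, `ε > 0` and every large `K` there is `N₀` such that for every
invariant set `S` (`δ` the density of its elements of finite excursion), all `N ≥ N₀`, all `r`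
families of integers of absolute value at most `N`, at least `2 t` of which have energy at most
`C L ^ (2 t) / N`, and EVERY integer `n` with `|n| ≤ B N`: the number of the representations of `n` as
a sum of a positive integer `x ∈ S` with `t(x) ≤ lam x` and of one member of each family is `δ` times
the number of such representations with a positive safe integer `x`, up to `ε` times the number of all
choices.
(2) For every nonconstant integer polynomial `P` there are `t`, `C` such that the families `P(1), ..., P(L)`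
satisfy the condition in (1) with the constant `C B` if `N ≤ B L ^ deg P`.
(3) For every nonconstant integer polynomial `P`, every `r ≥ r₀ (P)` and every `lam ≥ lam₀ (P, r)`: if the invariant
set `S` contains a positive integer of finite excursion, then for every large `n` at least `κ n ^ (r / deg P)`
tuples of positive integers `m j` are such that `n` is a sum of a positive integer `x ∈ S` with `t(x) ≤ lam x` and
of the `P (m j)`. (4) For every `k ≥ 1` there are `r` and `lam` such that every large integer is the sum of a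
positive integer `x ∈ S` with `t(x) ≤ lam x` and of `r` positive `k`-th powers, if `S` is invariant and contains a
positive integer of finite excursion (for example if `S` consists of all integers, or of those which reach `1`).
(5) Let `F` be any function (for example `F x = C x ^ 2`), `P` a nonconstant integer polynomial and
`r ≥ r₀ (P)`. If for infinitely many `n` only `o(n ^ (r / deg P))` of the tuples of positive integers `m j` lead to
an integer `x = n - ∑ P (m j) > 0` with `t(x) > F x`, then `t(n) < ∞` for all `n`. -/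
theorem result :
    (∀ (r t B : ℕ), 1 ≤ t → ∀ C lam : ℝ, 1 ≤ lam → ∀ ε : ℝ, 0 < ε → ∃ K₀ : ℕ, ∀ K : ℕ, K₀ ≤ K →
      ∃ N₀ : ℕ, ∀ S : Set ℕ, Invariant S → ∃ δ : ℝ, HasDensity (fun n => n ∈ S ∧ FiniteExcursion n) δ ∧
      ∀ N : ℕ, N₀ ≤ N → ∀ (L : Fin r → ℕ) (a : ∀ j, Fin (L j) → ℤ), (∀ j i, |a j i| ≤ N) →
      ∀ J : Finset (Fin r), 2 * t ≤ J.card → (∀ j ∈ J, Spread t C N (a j)) → ∀ n : ℤ, |n| ≤ B * N →
        |(reps (fun x => x ∈ S ∧ ExcursionLE x (lam * x)) n a : ℝ) - δ * reps (Safe K lam) n a| ≤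
          ε * ∏ j, (L j : ℝ)) ∧
    (∀ P : Polynomial ℤ, 1 ≤ P.natDegree → ∃ t : ℕ, 1 ≤ t ∧ ∃ C : ℝ, ∀ B L N : ℕ, 1 ≤ N →
      N ≤ B * L ^ P.natDegree → Spread t (C * B) N (vals P L)) ∧
    (∀ P : Polynomial ℤ, 1 ≤ P.natDegree → ∃ r₀ : ℕ, ∀ r : ℕ, r₀ ≤ r → ∃ lam₀ : ℝ, ∀ lam : ℝ, lam₀ ≤ lam →
      ∀ S : Set ℕ, Invariant S → (∃ x ∈ S, 1 ≤ x ∧ FiniteExcursion x) → ∃ κ : ℝ, 0 < κ ∧
      ∃ n₀ : ℕ, ∀ n : ℕ, n₀ ≤ n → κ * (n : ℝ) ^ ((r : ℝ) / P.natDegree) ≤
        polyReps (fun x => x ∈ S ∧ ExcursionLE x (lam * x)) n P r) ∧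
    (∀ k : ℕ, 1 ≤ k → ∃ r : ℕ, 1 ≤ r ∧ ∃ lam : ℝ, 1 ≤ lam ∧ ∀ S : Set ℕ, Invariant S →
      (∃ x ∈ S, 1 ≤ x ∧ FiniteExcursion x) → ∃ n₀ : ℕ, ∀ n : ℕ, n₀ ≤ n →
      ∃ x ∈ S, 1 ≤ x ∧ ExcursionLE x (lam * x) ∧ ∃ m : Fin r → ℕ, (∀ j, 1 ≤ m j) ∧ n = x + ∑ j, m j ^ k) ∧
    ∀ P : Polynomial ℤ, 1 ≤ P.natDegree → ∃ r₀ : ℕ, ∀ r : ℕ, r₀ ≤ r → ∀ (F : ℕ → ℝ) (ψ : ℕ → ℝ),
      Tendsto ψ atTop (𝓝 0) →
      (∃ᶠ n : ℕ in atTop, (polyReps (fun x => ¬ ExcursionLE x (F x)) n P r : ℝ) ≤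
        ψ n * (n : ℝ) ^ ((r : ℝ) / P.natDegree)) →
      ∀ n : ℕ, 1 ≤ n → FiniteExcursion n := by
  refine ⟨fun r t B ht C lam hl ε hε => ?_, fun P hP => ?_, fun P hP => ?_, fun k hk => powers hk, fun P hP => ?_⟩
  · obtain ⟨K₀, hK₀⟩ := general r t B ht C hl hε
    refine ⟨K₀, fun K hK => ?_⟩
    obtain ⟨N₀, hN₀⟩ := hK₀ K hK
    refine ⟨N₀, fun S hS => ?_⟩
    obtain ⟨δ, _, _, hδ, _⟩ := dens S hS
    exact ⟨δ, hδ, hN₀ S hS δ hδ⟩
  · obtain ⟨t₀, C, -, H⟩ := Pool.Agent.Results.MP_d02c56_nt.WaringProblem.poly_spread P hP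
    exact ⟨t₀ + 1, by omega, C, fun B L N hN hNL => H (t₀ + 1) (by omega) B L N hN hNL⟩
  · obtain ⟨r₀, _, H⟩ := every hP
    refine ⟨r₀, fun r hr => ?_⟩
    obtain ⟨lam₀, _, h⟩ := H r hr
    exact ⟨lam₀, h⟩
  · obtain ⟨r₀, _, H⟩ := Pool.Agent.Results.MP_d02c56_nt.WaringProblem.every hP
    refine ⟨r₀, fun r hr F ψ hψ h n hn => ?_⟩
    by_contra hcon
    set U : Set ℤ := Pool.Agent.H499R2.ND.NS (fun n => ¬ Bdd n) with hU
    have hinv := Pool.Agent.H499R2.ND.NS_inv (P := fun n => ¬ Bdd n) (fun n _ => not_congr (Pool.Agent.H499R2.ND.Bdd_inv n))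
    have hUC : Pool.Agent.Results.MP_d02c56_nt.WaringProblem.Invariant U := by
      have h1 : Pool.Agent.Q49.PE.Inv U := hinv
      exact Pool.Agent.Q49.PE.inv_C h1
    obtain ⟨κ, hκ, n₀, h1⟩ := H r hr 1 (Or.inl rfl) U hUC ⟨(n : ℤ), ⟨by exact_mod_cast hn, by
      rw [Int.toNat_natCast]; exact hcon⟩, by rw [one_mul]; exact_mod_cast hn⟩
    have h2 : ∀ᶠ n : ℕ in atTop, ψ n < κ := (tendsto_order.1 hψ).2 κ hκ
    obtain ⟨N, h3, h4, h5⟩ := (h.and_eventually (h2.and (eventually_ge_atTop (n₀ + 1)))).exists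
    have h6 := h1 N (by omega)
    have hn0 : (0 : ℝ) < N := by exact_mod_cast (by omega : 0 < N)
    have h7 : ψ N * (N : ℝ) ^ ((r : ℝ) / P.natDegree) < κ * (N : ℝ) ^ ((r : ℝ) / P.natDegree) :=
      mul_lt_mul_of_pos_right h4 (by positivity)
    have h8 : Pool.Agent.Results.MP_d02c56_nt.WaringProblem.polyReps 1 U N P r ≤
        polyReps (fun x => ¬ ExcursionLE x (F x)) N P r := by
      unfold Pool.Agent.Results.MP_d02c56_nt.WaringProblem.polyReps polyReps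
      apply Set.ncard_le_ncard _ (Pool.Agent.Q49.WA.polyRepsQ_finite (fun x => ¬ ExcursionLE x.toNat (F x.toNat)) N P hP r)
      rintro m ⟨b1, b2, b3⟩
      refine ⟨b1, b2, fun b4 => ?_⟩
      rw [one_mul] at b3
      exact b3.2 ⟨⌊F _⌋₊, fun k => Nat.le_floor (b4 k)⟩
    have h9 : ((Pool.Agent.Results.MP_d02c56_nt.WaringProblem.polyReps 1 U N P r : ℕ) : ℝ) ≤
        polyReps (fun x => ¬ ExcursionLE x (F x)) N P r := by exact_mod_cast h8
    linarith

end Pool.Agent.Results.MP_0a5adf_nt.WaringWithSmallExcursion
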