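import Pool.Agent.Q49.ME.Exc
import Pool.Agent.Results.MP_0a5adf_nt.WaringWithSmallExcursion

set_option autoImplicit false

/-!
# Multiple ergodic averages and recurrence along the integers of small excursion

Let `T 1, ..., T m` be commuting invertible measure preserving transformations of a probability space and
`f 1, ..., f m` bounded measurable functions. The averages over `n ≤ N` of
`(1[n ∈ S, t(n) ≤ lam n] - δ 1[n safe]) f 1 (T 1 ^ n x) ⋯ f m (T m ^ n x)` are small in quadratic mean; here `S` is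
an invariant set, `δ` the density of its elements of finite excursion, and `n` is safe if the first `K` parities of
its trajectory allow `t(n) ≤ lam n` (a condition on `n` modulo `2 ^ K`); the bound is uniform in `S`, in the space,
the transformations and the functions. Consequently the set of the `n ∈ S` with `t(n) = n` is a set of recurrence for
all measure preserving transformations, with a positive lower density of return times (and a set of multiple
recurrence, by the theorem of Furstenberg and Katznelson), and all excursions are finite if they are so, with any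
bound `t(n) ≤ F(n)`, for almost all return times of one set of positive measure in one dynamical system.
-/

namespace Pool.Agent.Results.MP_0a5adf_nt.RecurrenceSmallExcursion

open Filter Topology MeasureTheory
open Pool.Agent.Results.MP_0a5adf_nt.WaringWithSmallExcursion (FiniteExcursion ExcursionLE Invariant HasDensity odds Safe
  safe_eq exc_eq dens)
open Pool.Agent.Results.MP_2d22f3_nt.MultipleRecurrence (System Bounded P_meas P_norm ret_sum tp tp_mp tp_pow)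
open Pool.Agent.H499R2.ND (AK Bdd Tn)
open Pool.Agent.Q49.EX (Ec)

open Classical in
/-- `1` if `n` has the property `P`, and `0` otherwise -/
noncomputable def ind (P : ℕ → Prop) (n : ℕ) : ℝ := if P n then 1 else 0

theorem ind01 (P : ℕ → Prop) (n : ℕ) : 0 ≤ ind P n ∧ ind P n ≤ 1 := by
  unfold ind
  split_ifs <;> norm_num

theorem ind_pos {P : ℕ → Prop} {n : ℕ} (h : P n) : ind P n = 1 := by unfold ind; rw [if_pos h]

theorem ind_neg {P : ℕ → Prop} {n : ℕ} (h : ¬ P n) : ind P n = 0 := by unfold ind; rw [if_neg h]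

/-- the property in question -/
def Small (S : Set ℕ) (lam : ℝ) (n : ℕ) : Prop := n ∈ S ∧ ExcursionLE n (lam * n)

theorem small (m : ℕ) {lam : ℝ} (hl : 1 ≤ lam) {ε : ℝ} (hε : 0 < ε) : ∃ K₀ : ℕ, ∀ K : ℕ, K₀ ≤ K → ∃ N₀ : ℕ, 1 ≤ N₀ ∧
    ∀ S : Set ℕ, Invariant S → ∀ δ : ℝ, HasDensity (fun n => n ∈ S ∧ FiniteExcursion n) δ → ∀ N : ℕ, N₀ ≤ N →
    ∀ (X : Type) [MeasurableSpace X] (Y : System m X) (f : Fin m → X → ℂ), Bounded f →
      ∫ x, ‖∑ n ∈ Finset.Icc 1 N, ((ind (Small S lam) n - δ * ind (Safe K lam) n : ℝ) : ℂ) * Y.P f n x‖ ^ 2 ∂Y.μ ≤ ε * N ^ 2 := by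
  classical
  obtain ⟨K0, h0⟩ := Pool.Agent.Q49.ME.excL2 m hl hε
  refine ⟨K0, fun K hK => ?_⟩
  obtain ⟨N0, h1, h2⟩ := h0 K hK
  refine ⟨N0, h1, fun S hS δ hδ N hN X _ Y f hf => ?_⟩
  have h3 := h2 (fun n => n ∈ S) hS δ hδ N hN X Y f hf
  refine le_trans (le_of_eq ?_) h3
  congr 1
  funext x
  congr 2
  apply Finset.sum_congr rfl; intro n _
  congr 2
  have e1 : ind (Small S lam) n = if n ∈ S ∧ Ec lam n then (1 : ℝ) else 0 := by
    by_cases h : n ∈ S ∧ Ec lam n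
    · rw [if_pos h]; exact ind_pos (P := Small S lam) h
    · rw [if_neg h]; exact ind_neg (P := Small S lam) h
  have e2 : ind (Safe K lam) n = if AK K lam n then (1 : ℝ) else 0 := by
    rw [safe_eq]
    by_cases h : AK K lam n
    · rw [if_pos h]; exact ind_pos h
    · rw [if_neg h]; exact ind_neg h
  rw [e1, e2]

theorem small_ret (m : ℕ) {lam : ℝ} (hl : 1 ≤ lam) {ε : ℝ} (hε : 0 < ε) : ∃ K₀ : ℕ, ∀ K : ℕ, K₀ ≤ K → ∃ N₀ : ℕ, 1 ≤ N₀ ∧
    ∀ S : Set ℕ, Invariant S → ∀ δ : ℝ, HasDensity (fun n => n ∈ S ∧ FiniteExcursion n) δ → ∀ N : ℕ, N₀ ≤ N →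
    ∀ (X : Type) [MeasurableSpace X] (Y : System m X) (A₀ : Set X) (A : Fin m → Set X),
      MeasurableSet A₀ → (∀ i, MeasurableSet (A i)) →
      |∑ n ∈ Finset.Icc 1 N, (ind (Small S lam) n - δ * ind (Safe K lam) n) * Y.ret A₀ A n| ≤ ε * N := by
  obtain ⟨K0, h0⟩ := small m hl (show 0 < ε ^ 2 by positivity)
  refine ⟨K0, fun K hK => ?_⟩
  obtain ⟨N0, h1, h2⟩ := h0 K hK
  refine ⟨N0, h1, fun S hS δ hδ N hN X _ Y A₀ A hA₀ hA => ?_⟩
  refine (ret_sum Y hA₀ hA (fun n => ind (Small S lam) n - δ * ind (Safe K lam) n) N).trans ?_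
  have h3 := h2 S hS δ hδ N hN X Y (fun i => (A i).indicator (fun _ => 1)) (fun i => ⟨measurable_const.indicator (hA i), fun x => by
    show ‖(A i).indicator (fun _ => (1 : ℂ)) x‖ ≤ 1
    by_cases h : x ∈ A i
    · rw [Set.indicator_of_mem h]; simp
    · rw [Set.indicator_of_notMem h]; simp⟩)
  calc _ ≤ Real.sqrt (ε ^ 2 * N ^ 2) := Real.sqrt_le_sqrt h3
    _ = ε * N := by
      rw [← mul_pow, Real.sqrt_sq (by positivity)]

/-! ### powers of a system -/

section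
variable {m : ℕ} {X : Type} [MeasurableSpace X]

/-- the iterates of a measurable equivalence -/
def pw (e : X ≃ᵐ X) : ℕ → (X ≃ᵐ X)
  | 0 => MeasurableEquiv.refl X
  | n + 1 => e.trans (pw e n)

theorem pw_eq (e : X ≃ᵐ X) (n : ℕ) (x : X) : pw e n x = e^[n] x := by
  induction n generalizing x with
  | zero => rfl
  | succ n ih => rw [Function.iterate_succ_apply, ← ih]; rfl

theorem pw_iter (e : X ≃ᵐ X) (q n : ℕ) (x : X) : (pw e q)^[n] x = e^[q * n] x := by
  have h : ⇑(pw e q) = e^[q] := funext fun x => pw_eq e q x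
  rw [h, ← Function.iterate_mul]

/-- the system of the `q`-th powers -/
noncomputable def power (Y : System m X) (q : ℕ) : System m X where
  μ := Y.μ
  prob := Y.prob
  T := fun i => pw (Y.T i) q
  mp := fun i => by
    have h : ⇑(pw (Y.T i) q) = (Y.T i)^[q] := funext fun x => pw_eq _ q x
    rw [h]
    exact (Y.mp i).iterate q
  comm := fun i j x => by
    simp only [pw_eq]
    have h : Function.Commute (Y.T i) (Y.T j) := fun x => Y.comm i j x
    exact (h.iterate_iterate q q) x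

theorem power_ret (Y : System m X) (q : ℕ) (A₀ : Set X) (A : Fin m → Set X) (n : ℕ) :
    (power Y q).ret A₀ A n = Y.ret A₀ A (q * n) := by
  unfold System.ret
  have e : {x | ∀ i, ((power Y q).T i)^[n] x ∈ A i} = {x | ∀ i, (Y.T i)^[q * n] x ∈ A i} := by
    ext x
    simp only [Set.mem_ofPred_eq]
    apply forall_congr'
    intro i
    show (pw (Y.T i) q)^[n] x ∈ A i ↔ _
    rw [pw_iter]
  rw [e]
  rfl

theorem ret0 (Y : System m X) (A₀ : Set X) (A : Fin m → Set X) (n : ℕ) : 0 ≤ Y.ret A₀ A n := measureReal_nonneg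

theorem ret1 (Y : System m X) (A₀ : Set X) (A : Fin m → Set X) (n : ℕ) : Y.ret A₀ A n ≤ 1 := by
  have := Y.prob
  exact measureReal_le_one

end

theorem Tn_two (n : ℕ) : Tn (2 * n) = n := by
  have h : Tn (2 * n) = if (2 * n) % 2 = 0 then (2 * n) / 2 else (3 * (2 * n) + 1) / 2 := rfl
  rw [h, if_pos (by omega)]
  omega

theorem Tn_pow (j n : ℕ) : ∀ k : ℕ, k ≤ j → Tn^[k] (2 ^ j * n) = 2 ^ (j - k) * n := by
  intro k
  induction k with
  | zero => intro _; simp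
  | succ k ih =>
    intro hk
    rw [Function.iterate_succ_apply', ih (by omega)]
    have : 2 ^ (j - k) * n = 2 * (2 ^ (j - (k + 1)) * n) := by
      rw [← mul_assoc, ← pow_succ']
      congr 2
      omega
    rw [this, Tn_two]

/-- multiplication by a power of two -/
theorem small_mul {S : Set ℕ} (hS : Invariant S) (j : ℕ) {n : ℕ} (hn : 1 ≤ n) (h : Small S (2 ^ j) n) :
    Small S 1 (2 ^ j * n) := by
  obtain ⟨h1, h2⟩ := h
  constructor
  · -- invariance
    have h3 : ∀ i : ℕ, 2 ^ i * n ∈ S := by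
      intro i
      induction i with
      | zero => simpa using h1
      | succ i ih =>
        rw [hS _ (Nat.mul_pos (by positivity) hn)]
        have e : Pool.Agent.Results.MP_0a5adf_nt.WaringWithSmallExcursion.T (2 ^ (i + 1) * n) = 2 ^ i * n := by
          have e1 : 2 ^ (i + 1) * n = 2 * (2 ^ i * n) := by rw [pow_succ]; ring
          rw [e1]
          exact Tn_two _
        rw [e]
        exact ih
    exact h3 j
  · intro k
    rcases le_or_gt k j with hk | hk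
    · have h3 : Pool.Agent.Results.MP_0a5adf_nt.WaringWithSmallExcursion.T^[k] (2 ^ j * n) = 2 ^ (j - k) * n :=
        Tn_pow j n k hk
      rw [h3, one_mul]
      have h4 : 2 ^ (j - k) * n ≤ 2 ^ j * n := Nat.mul_le_mul_right _ (Nat.pow_le_pow_right (by omega) (by omega))
      exact_mod_cast h4
    · obtain ⟨i, rfl⟩ : ∃ i, k = i + j := ⟨k - j, by omega⟩
      have h3 : Pool.Agent.Results.MP_0a5adf_nt.WaringWithSmallExcursion.T^[j] (2 ^ j * n) = n := by
        have := Tn_pow j n j le_rfl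
        rw [Nat.sub_self, pow_zero, one_mul] at this
        exact this
      rw [Function.iterate_add_apply, h3, one_mul]
      refine (h2 i).trans (le_of_eq ?_)
      push_cast; ring

/-- recurrence along the `n` with `t(n) = n` -/
theorem recurrence {S : Set ℕ} (hS : Invariant S) (hne : ∃ x ∈ S, 1 ≤ x ∧ FiniteExcursion x) {m : ℕ} {X : Type}
    [MeasurableSpace X] (Y : System m X) {A₀ : Set X} {A : Fin m → Set X} (hA₀ : MeasurableSet A₀)
    (hA : ∀ i, MeasurableSet (A i)) {j : ℕ} {c : ℝ} (hc : 1 / 2 ^ j < c)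
    (h : ∀ᶠ M : ℕ in atTop, c * M ≤ ∑ n ∈ Finset.Icc 1 M, Y.ret A₀ A (2 ^ j * n)) :
    ∃ κ : ℝ, 0 < κ ∧ ∃ N₀ : ℕ, ∀ N : ℕ, N₀ ≤ N → κ * N ≤ ∑ n ∈ Finset.Icc 1 N, ind (Small S 1) n * Y.ret A₀ A n := by
  classical
  obtain ⟨δ, _, _, hδ, hδpos⟩ := dens S hS
  have hδ0 := hδpos hne
  have hj : (1 : ℝ) ≤ 2 ^ j := one_le_pow₀ (by norm_num)
  have hj0 : (0 : ℝ) < 2 ^ j := by positivity
  set γ : ℝ := c - 1 / 2 ^ j with hγ
  have hγ0 : 0 < γ := by rw [hγ]; linarith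
  obtain ⟨K, hK⟩ := small_ret m hj (show 0 < δ * γ / 4 by positivity)
  obtain ⟨N1, _, hN1⟩ := hK K le_rfl
  obtain ⟨N2, hN2⟩ := eventually_atTop.1 h
  set V : ℕ := ⌈4 * 2 ^ K / γ⌉₊ with hV
  refine ⟨δ * γ / 2 / (2 * 2 ^ j), by positivity, 2 ^ j * (N1 + N2 + V + 1), fun N hN => ?_⟩
  set M : ℕ := N / 2 ^ j with hM
  have hM1 : N1 + N2 + V + 1 ≤ M := (Nat.le_div_iff_mul_le (by positivity)).2 (by rw [mul_comm]; exact hN)
  have hMp : (0 : ℝ) < M := by exact_mod_cast (by omega : 0 < M)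
  have h1 := hN1 S hS δ hδ M (by omega) X (power Y (2 ^ j)) A₀ A hA₀ hA
  simp only [power_ret] at h1
  -- the safe ones
  have h2 : c * M - (M / 2 ^ j + 2 ^ K) ≤ ∑ n ∈ Finset.Icc 1 M, ind (Safe K (2 ^ j)) n * Y.ret A₀ A (2 ^ j * n) := by
    have h3 := Pool.Agent.Q49.EX.unsafe_card (lam := 2 ^ j) hj0 K M
    have h4 := hN2 M (by omega)
    have h5 : ∑ n ∈ Finset.Icc 1 M, Y.ret A₀ A (2 ^ j * n) ≤
        ∑ n ∈ Finset.Icc 1 M, (ind (Safe K (2 ^ j)) n * Y.ret A₀ A (2 ^ j * n) + (if ¬ AK K (2 ^ j) n then (1 : ℝ) else 0)) := by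
      apply Finset.sum_le_sum; intro n _
      have r0 := ret0 Y A₀ A (2 ^ j * n)
      have r1 := ret1 Y A₀ A (2 ^ j * n)
      by_cases hA' : AK K (2 ^ j) n
      · have e : ind (Safe K (2 ^ j)) n = 1 := ind_pos (P := Safe K (2 ^ j)) (by rw [safe_eq]; exact hA')
        rw [e, if_neg (not_not.2 hA')]
        linarith
      · have e : ind (Safe K (2 ^ j)) n = 0 := ind_neg (P := Safe K (2 ^ j)) (by rw [safe_eq]; exact hA')
        rw [e, if_pos hA']
        linarith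
    rw [Finset.sum_add_distrib] at h5
    have h6 : ∑ n ∈ Finset.Icc 1 M, (if ¬ AK K (2 ^ j) n then (1 : ℝ) else 0) =
        ((((Finset.Icc 1 M).filter (fun n : ℕ => ¬ AK K (2 ^ j) n)).card : ℕ) : ℝ) := by
      rw [Finset.card_filter]; push_cast; rfl
    rw [h6] at h5
    have h7 : ((((Finset.Icc 1 M).filter (fun n : ℕ => ¬ AK K (2 ^ j) n)).card : ℕ) : ℝ) ≤ M / 2 ^ j + 2 ^ K := by
      refine le_trans (le_of_eq ?_) h3
      congr!
    linarith
  have h3 : 4 * 2 ^ K ≤ γ * M := by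
    have h4 : (4 * 2 ^ K / γ : ℝ) ≤ M := (Nat.le_ceil _).trans (by exact_mod_cast (by omega : ⌈(4 * 2 ^ K / γ : ℝ)⌉₊ ≤ M))
    rw [div_le_iff₀ hγ0] at h4
    linarith
  have h4 : γ * M - 2 ^ K ≤ ∑ n ∈ Finset.Icc 1 M, ind (Safe K (2 ^ j)) n * Y.ret A₀ A (2 ^ j * n) := by
    refine le_trans (le_of_eq ?_) h2
    rw [hγ]; ring
  have h5 := (abs_le.1 h1).1
  have e1 : ∑ n ∈ Finset.Icc 1 M, (ind (Small S (2 ^ j)) n - δ * ind (Safe K (2 ^ j)) n) * Y.ret A₀ A (2 ^ j * n)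
      = ∑ n ∈ Finset.Icc 1 M, ind (Small S (2 ^ j)) n * Y.ret A₀ A (2 ^ j * n)
        - δ * ∑ n ∈ Finset.Icc 1 M, ind (Safe K (2 ^ j)) n * Y.ret A₀ A (2 ^ j * n) := by
    rw [Finset.mul_sum, ← Finset.sum_sub_distrib]
    apply Finset.sum_congr rfl; intro n _
    ring
  rw [e1] at h5
  have h6 : δ * (γ * M - 2 ^ K) ≤ δ * ∑ n ∈ Finset.Icc 1 M, ind (Safe K (2 ^ j)) n * Y.ret A₀ A (2 ^ j * n) :=
    mul_le_mul_of_nonneg_left h4 hδ0.le
  have h7 : δ * (4 * 2 ^ K) ≤ δ * (γ * M) := mul_le_mul_of_nonneg_left h3 hδ0.le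
  have h8 : δ * γ / 2 * M ≤ ∑ n ∈ Finset.Icc 1 M, ind (Small S (2 ^ j)) n * Y.ret A₀ A (2 ^ j * n) := by linarith
  -- transfer
  have h9 : ∑ n ∈ Finset.Icc 1 M, ind (Small S (2 ^ j)) n * Y.ret A₀ A (2 ^ j * n) ≤
      ∑ n ∈ Finset.Icc 1 N, ind (Small S 1) n * Y.ret A₀ A n := by
    have hinj : Set.InjOn (fun n : ℕ => 2 ^ j * n) (Finset.Icc 1 M : Finset ℕ) := by
      intro a _ b _ hab
      exact Nat.eq_of_mul_eq_mul_left (by positivity) hab
    calc ∑ n ∈ Finset.Icc 1 M, ind (Small S (2 ^ j)) n * Y.ret A₀ A (2 ^ j * n)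
        ≤ ∑ n ∈ Finset.Icc 1 M, ind (Small S 1) (2 ^ j * n) * Y.ret A₀ A (2 ^ j * n) := by
          apply Finset.sum_le_sum; intro n hn
          rw [Finset.mem_Icc] at hn
          apply mul_le_mul_of_nonneg_right _ (ret0 _ _ _ _)
          by_cases hs : Small S (2 ^ j) n
          · rw [ind_pos hs, ind_pos (small_mul hS j hn.1 hs)]
          · rw [ind_neg hs]; exact (ind01 _ _).1
      _ = ∑ n ∈ (Finset.Icc 1 M).image (fun n : ℕ => 2 ^ j * n), ind (Small S 1) n * Y.ret A₀ A n := by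
          rw [Finset.sum_image hinj]
      _ ≤ _ := by
          apply Finset.sum_le_sum_of_subset_of_nonneg
          · intro n hn
            rw [Finset.mem_image] at hn
            obtain ⟨a, ha, rfl⟩ := hn
            rw [Finset.mem_Icc] at ha ⊢
            refine ⟨Nat.mul_pos (by positivity) ha.1, ?_⟩
            calc 2 ^ j * a ≤ 2 ^ j * M := Nat.mul_le_mul_left _ ha.2
              _ ≤ N := Nat.mul_div_le N (2 ^ j)
          · intro n _ _
            exact mul_nonneg (ind01 _ _).1 (ret0 _ _ _ _)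
  refine le_trans ?_ (h8.trans h9)
  have h10 : (N : ℝ) ≤ 2 * 2 ^ j * M := by
    have h11 : N < 2 ^ j * (M + 1) := Nat.lt_mul_div_succ N (by positivity)
    have h12 : (N : ℝ) ≤ 2 ^ j * (M + 1) := by exact_mod_cast h11.le
    have h13 : (1 : ℝ) ≤ M := by exact_mod_cast (by omega : 1 ≤ M)
    nlinarith
  calc δ * γ / 2 / (2 * 2 ^ j) * N ≤ δ * γ / 2 / (2 * 2 ^ j) * (2 * 2 ^ j * M) := mul_le_mul_of_nonneg_left h10 (by positivity)
    _ = δ * γ / 2 * M := by field_simp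

/-- one transformation -/
theorem recurrence_one {S : Set ℕ} (hS : Invariant S) (hne : ∃ x ∈ S, 1 ≤ x ∧ FiniteExcursion x) {X : Type}
    [MeasurableSpace X] (Y : System 1 X) {A : Set X} (hA : MeasurableSet A) (hpos : 0 < Y.μ A) :
    ∃ κ : ℝ, 0 < κ ∧ ∃ N₀ : ℕ, ∀ N : ℕ, N₀ ≤ N → κ * N ≤ ∑ n ∈ Finset.Icc 1 N, ind (Small S 1) n * Y.ret A (fun _ => A) n := by
  have := Y.prob
  have hm : 0 < Y.μ.real A := by
    unfold Measure.real
    exact ENNReal.toReal_pos hpos.ne' (measure_ne_top _ _)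
  set a : ℝ := Y.μ.real A with ha
  obtain ⟨j, hj⟩ : ∃ j : ℕ, 4 / a ^ 2 < (2 : ℝ) ^ j := pow_unbounded_of_one_lt _ (by norm_num)
  have hj0 : (0 : ℝ) < 2 ^ j := by positivity
  refine recurrence hS hne Y hA (fun _ => hA) (j := j) (c := a ^ 2 / 4) ?_ ?_
  · rw [div_lt_iff₀ (by positivity)] at hj
    rw [div_lt_iff₀ hj0]
    linarith
  · obtain ⟨N1, hN1⟩ := exists_nat_ge (2 / a ^ 2)
    filter_upwards [eventually_ge_atTop (N1 + 1)] with M hM
    have hMp : (0 : ℝ) < M := by exact_mod_cast (by omega : 0 < M)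
    have hpp := (power Y (2 ^ j)).prob
    have h3 := Pool.Agent.Q49.ME.return_sum (tp_mp (power Y (2 ^ j)) 0) hA (N := M) (by omega)
    rw [Pool.Agent.Results.MP_2d22f3_nt.MultipleRecurrence.sum_cast] at h3
    have e : ∀ n : ℕ, (power Y (2 ^ j)).μ.real (A ∩ ⇑(tp (power Y (2 ^ j)) 0 ^ (n : ℤ)) ⁻¹' A) = Y.ret A (fun _ => A) (2 ^ j * n) := by
      intro n
      rw [← power_ret]
      unfold System.ret
      congr 1
      ext x
      simp only [Set.mem_inter_iff, Set.mem_preimage, Set.mem_ofPred_eq]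
      rw [tp_pow]
      constructor
      · rintro ⟨a, b⟩; exact ⟨a, fun i => by rw [Fin.fin_one_eq_zero i]; exact b⟩
      · rintro ⟨a, b⟩; exact ⟨a, b 0⟩
    simp_rw [e] at h3
    refine le_trans ?_ h3
    have h4 : (N1 : ℝ) ≤ M := by exact_mod_cast (by omega : N1 ≤ M)
    have h5 : 2 / a ^ 2 ≤ M := hN1.trans h4
    rw [div_le_iff₀ (by positivity)] at h5
    have e2 : (power Y (2 ^ j)).μ.real A = a := rfl
    rw [e2]
    linarith

/-- the integers of infinite excursion, as a set of integers -/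
theorem infinite_inv : Pool.Agent.Results.MP_2d22f3_nt.MultipleRecurrence.Invariant
    (Pool.Agent.H499R2.ND.NS (fun n => ¬ Bdd n)) := by
  have hinv := Pool.Agent.H499R2.ND.NS_inv (P := fun n => ¬ Bdd n) (fun n _ => not_congr (Pool.Agent.H499R2.ND.Bdd_inv n))
  have h1 : Pool.Agent.Q49.PE.Inv (Pool.Agent.H499R2.ND.NS (fun n => ¬ Bdd n)) := hinv
  exact Pool.Agent.Q49.PE.inv_C h1

/-- almost all return times are sufficient -/
theorem sufficient (m : ℕ) {κ : ℝ} (hκ : 0 < κ) (F : ℕ → ℝ) {ψ : ℕ → ℝ} (hψ : Tendsto ψ atTop (𝓝 0))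
    (h : ∃ᶠ N : ℕ in atTop, ∃ (X : Type) (_ : MeasurableSpace X) (Y : System m X) (A₀ : Set X) (A : Fin m → Set X),
      MeasurableSet A₀ ∧ (∀ i, MeasurableSet (A i)) ∧ κ * N ≤ ∑ n ∈ Finset.Icc 1 N, Y.ret A₀ A n ∧
      ∑ n ∈ Finset.Icc 1 N, ind (fun n => ¬ ExcursionLE n (F n)) n * Y.ret A₀ A n ≤ ψ N * N) :
    ∀ n : ℕ, 1 ≤ n → FiniteExcursion n := by
  intro n hn
  set U : Set ℤ := Pool.Agent.H499R2.ND.NS (fun n => ¬ Bdd n) with hU
  have h1 : ∀ x : ℤ, 0 < 1 * x → x ∈ Uᶜ := by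
    apply Pool.Agent.Results.MP_2d22f3_nt.MultipleRecurrence.sufficient (Or.inl rfl) m (S := Uᶜ)
      (fun x => not_congr (infinite_inv x)) hκ hψ
    refine h.mono ?_
    rintro N ⟨X, _, Y, A₀, A, hA₀, hA, h2, h3⟩
    refine ⟨X, inferInstance, Y, A₀, A, hA₀, hA, h2, le_trans ?_ h3⟩
    apply Finset.sum_le_sum; intro n hn
    rw [Finset.mem_Icc] at hn
    apply mul_le_mul_of_nonneg_right _ (ret0 _ _ _ _)
    unfold Pool.Agent.Results.MP_2d22f3_nt.MultipleRecurrence.ind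
    rw [compl_compl]
    by_cases h4 : (1 : ℤ) * (n : ℤ) ∈ U
    · rw [Set.indicator_of_mem h4]
      have h5 : ¬ ExcursionLE n (F n) := by
        intro h6
        rw [one_mul] at h4
        have h7 := h4.2
        simp only [Int.toNat_natCast] at h7
        exact h7 ⟨⌊F n⌋₊, fun k => Nat.le_floor (h6 k)⟩
      rw [ind_pos (P := fun n => ¬ ExcursionLE n (F n)) h5]
    · rw [Set.indicator_of_notMem h4]
      exact (ind01 _ _).1
  by_contra hcon
  have h2 := h1 (n : ℤ) (by rw [one_mul]; exact_mod_cast hn)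
  exact h2 ⟨by exact_mod_cast hn, by simp only [Int.toNat_natCast]; exact hcon⟩

theorem sufficient_one (F : ℕ → ℝ) {ψ : ℕ → ℝ} (hψ : Tendsto ψ atTop (𝓝 0)) {X : Type} [MeasurableSpace X] (Y : System 1 X)
    {A : Set X} (hA : MeasurableSet A) (hpos : 0 < Y.μ A)
    (h : ∃ᶠ N : ℕ in atTop,
      ({n : ℕ | 1 ≤ n ∧ n ≤ N ∧ 0 < Y.ret A (fun _ => A) n ∧ ¬ ExcursionLE n (F n)}.ncard : ℝ) ≤ ψ N * N) :
    ∀ n : ℕ, 1 ≤ n → FiniteExcursion n := by
  intro n hn
  set U : Set ℤ := Pool.Agent.H499R2.ND.NS (fun n => ¬ Bdd n) with hU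
  have h1 : ∀ x : ℤ, 0 < 1 * x → x ∈ Uᶜ := by
    apply Pool.Agent.Results.MP_2d22f3_nt.MultipleRecurrence.sufficient_one (Or.inl rfl) (S := Uᶜ)
      (fun x => not_congr (infinite_inv x)) Y hA hpos hψ
    refine h.mono fun N h2 => le_trans ?_ h2
    have h3 : {n : ℕ | 1 ≤ n ∧ n ≤ N ∧ 0 < Y.ret A (fun _ => A) n ∧ 1 * (n : ℤ) ∉ Uᶜ}.ncard ≤
        {n : ℕ | 1 ≤ n ∧ n ≤ N ∧ 0 < Y.ret A (fun _ => A) n ∧ ¬ ExcursionLE n (F n)}.ncard := by
      apply Set.ncard_le_ncard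
      · rintro n ⟨a1, a2, a3, a4⟩
        refine ⟨a1, a2, a3, fun h6 => ?_⟩
        rw [one_mul, Set.mem_compl_iff, not_not] at a4
        have h7 := a4.2
        simp only [Int.toNat_natCast] at h7
        exact h7 ⟨⌊F n⌋₊, fun k => Nat.le_floor (h6 k)⟩
      · exact (Set.finite_Icc 1 N).subset fun n hn => ⟨hn.1, hn.2.1⟩
    exact_mod_cast h3
  by_contra hcon
  have h2 := h1 (n : ℤ) (by rw [one_mul]; exact_mod_cast hn)
  exact h2 ⟨by exact_mod_cast hn, by simp only [Int.toNat_natCast]; exact hcon⟩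

/-- ERGODIC AVERAGES AND RECURRENCE ALONG THE INTEGERS OF SMALL EXCURSION. (1) For all `m`, `lam ≥ 1`, `ε > 0`, all
large `K` and all large `N`: for every invariant set `S` (`δ` the density of its elements of finite excursion), every
system `Y` of `m` commuting invertible measure preserving transformations and all measurable `f 1, ..., f m` with
values in the unit disc, the mean over `n ≤ N` of
`(1[n ∈ S, t(n) ≤ lam n] - δ 1[n safe]) f 1 (T 1 ^ n x) ⋯ f m (T m ^ n x)` has a norm at most `ε` in `L²`, and the sum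
over `n ≤ N` of `1[n ∈ S, t(n) ≤ lam n] - δ 1[n safe]` times the measure of `A₀ ∩ T 1 ^ (-n) A 1 ∩ ... ∩ T m ^ (-n) A m`
is at most `ε N` in absolute value. (2) Let the invariant set `S` contain a positive integer of finite excursion. If
for some `j` and `c > 1 / 2 ^ j` the sum over `n ≤ M` of the measures of
`A₀ ∩ T 1 ^ (-2 ^ j n) A 1 ∩ ... ∩ T m ^ (-2 ^ j n) A m` is at least `c M` for all large `M` (for `A₀ = A i = A` of
positive measure this holds by a theorem of Furstenberg and Katznelson), then the sum of the measures of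
`A₀ ∩ T 1 ^ (-n) A 1 ∩ ... ∩ T m ^ (-n) A m` over the `n ≤ N` with `n ∈ S` and `t(n) = n` is at least `κ N`. (3) In
particular for every invertible measure preserving `T` and every `A` of positive measure the sum over the `n ≤ N` with
`n ∈ S` and `t(n) = n` of the measures of `A ∩ T ^ (-n) A` is at least `κ N`, `κ > 0`, for all large `N`.
(4) Let `F` be any function (for example `F n = C n ^ 2`). If for infinitely many `N` there are a system of `m`
transformations and sets such that the sum over `n ≤ N` of the measures of `A₀ ∩ T 1 ^ (-n) A 1 ∩ ...` is at least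
`κ N`, but `o(N)` over the `n` with `t(n) > F(n)`, then all excursions are finite. (5) The same if `A` has positive
measure for one transformation and for infinitely many `N` all but `o(N)` of the `n ≤ N` for which `A ∩ T ^ (-n) A` has
positive measure satisfy `t(n) ≤ F(n)`. -/
theorem result :
    (∀ (m : ℕ) (lam : ℝ), 1 ≤ lam → ∀ ε : ℝ, 0 < ε → ∃ K₀ : ℕ, ∀ K : ℕ, K₀ ≤ K → ∃ N₀ : ℕ,
      ∀ S : Set ℕ, Invariant S → ∃ δ : ℝ, HasDensity (fun n => n ∈ S ∧ FiniteExcursion n) δ ∧ ∀ N : ℕ, N₀ ≤ N →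
      ∀ (X : Type) [MeasurableSpace X] (Y : System m X),
        (∀ f : Fin m → X → ℂ, Bounded f → ∫ x, ‖(∑ n ∈ Finset.Icc 1 N,
          ((ind (Small S lam) n - δ * ind (Safe K lam) n : ℝ) : ℂ) * Y.P f n x) / N‖ ^ 2 ∂Y.μ ≤ ε ^ 2) ∧
        ∀ (A₀ : Set X) (A : Fin m → Set X), MeasurableSet A₀ → (∀ i, MeasurableSet (A i)) →
          |∑ n ∈ Finset.Icc 1 N, (ind (Small S lam) n - δ * ind (Safe K lam) n) * Y.ret A₀ A n| ≤ ε * N) ∧
    (∀ S : Set ℕ, Invariant S → (∃ x ∈ S, 1 ≤ x ∧ FiniteExcursion x) →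
      (∀ (m : ℕ) (X : Type) [MeasurableSpace X] (Y : System m X) (A₀ : Set X) (A : Fin m → Set X),
        MeasurableSet A₀ → (∀ i, MeasurableSet (A i)) → ∀ (j : ℕ) (c : ℝ), 1 / 2 ^ j < c →
        (∀ᶠ M : ℕ in atTop, c * M ≤ ∑ n ∈ Finset.Icc 1 M, Y.ret A₀ A (2 ^ j * n)) →
        ∃ κ : ℝ, 0 < κ ∧ ∃ N₀ : ℕ, ∀ N : ℕ, N₀ ≤ N → κ * N ≤ ∑ n ∈ Finset.Icc 1 N, ind (Small S 1) n * Y.ret A₀ A n) ∧
      ∀ (X : Type) [MeasurableSpace X] (Y : System 1 X) (A : Set X), MeasurableSet A → 0 < Y.μ A →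
        ∃ κ : ℝ, 0 < κ ∧ ∃ N₀ : ℕ, ∀ N : ℕ, N₀ ≤ N →
          κ * N ≤ ∑ n ∈ Finset.Icc 1 N, ind (Small S 1) n * Y.ret A (fun _ => A) n) ∧
    ∀ (F : ℕ → ℝ) (ψ : ℕ → ℝ), Tendsto ψ atTop (𝓝 0) →
      (∀ (m : ℕ) (κ : ℝ), 0 < κ →
        (∃ᶠ N : ℕ in atTop, ∃ (X : Type) (_ : MeasurableSpace X) (Y : System m X) (A₀ : Set X) (A : Fin m → Set X),
          MeasurableSet A₀ ∧ (∀ i, MeasurableSet (A i)) ∧ κ * N ≤ ∑ n ∈ Finset.Icc 1 N, Y.ret A₀ A n ∧
          ∑ n ∈ Finset.Icc 1 N, ind (fun n => ¬ ExcursionLE n (F n)) n * Y.ret A₀ A n ≤ ψ N * N) →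
        ∀ n : ℕ, 1 ≤ n → FiniteExcursion n) ∧
      ∀ (X : Type) [MeasurableSpace X] (Y : System 1 X) (A : Set X), MeasurableSet A → 0 < Y.μ A →
        (∃ᶠ N : ℕ in atTop,
          ({n : ℕ | 1 ≤ n ∧ n ≤ N ∧ 0 < Y.ret A (fun _ => A) n ∧ ¬ ExcursionLE n (F n)}.ncard : ℝ) ≤ ψ N * N) →
        ∀ n : ℕ, 1 ≤ n → FiniteExcursion n := by
  refine ⟨fun m lam hl ε hε => ?_, fun S hS hne => ⟨fun m X _ Y A₀ A hA₀ hA j c hc h => recurrence hS hne Y hA₀ hA hc h,
    fun X _ Y A hA hpos => recurrence_one hS hne Y hA hpos⟩, fun F ψ hψ => ⟨fun m κ hκ h => sufficient m hκ F hψ h,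
    fun X _ Y A hA hpos h => sufficient_one F hψ Y hA hpos h⟩⟩
  obtain ⟨K1, h1⟩ := small m hl (show 0 < ε ^ 2 by positivity)
  obtain ⟨K2, h2⟩ := small_ret m hl hε
  refine ⟨K1 + K2, fun K hK => ?_⟩
  obtain ⟨N1, a1, H1⟩ := h1 K (by omega)
  obtain ⟨N2, a2, H2⟩ := h2 K (by omega)
  refine ⟨N1 + N2, fun S hS => ?_⟩
  obtain ⟨δ, _, _, hδ, _⟩ := dens S hS
  refine ⟨δ, hδ, fun N hN X _ Y => ⟨fun f hf => ?_, fun A₀ A hA₀ hA => H2 S hS δ hδ N (by omega) X Y A₀ A hA₀ hA⟩⟩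
  have h3 := H1 S hS δ hδ N (by omega) X Y f hf
  have hNp : (0 : ℝ) < N := by exact_mod_cast (by omega : 0 < N)
  have e1 : ∀ x, ‖(∑ n ∈ Finset.Icc 1 N, ((ind (Small S lam) n - δ * ind (Safe K lam) n : ℝ) : ℂ) * Y.P f n x) / N‖ ^ 2
      = 1 / (N : ℝ) ^ 2 * ‖∑ n ∈ Finset.Icc 1 N, ((ind (Small S lam) n - δ * ind (Safe K lam) n : ℝ) : ℂ) * Y.P f n x‖ ^ 2 := by
    intro x
    rw [norm_div, Complex.norm_natCast, div_pow]
    ring
  simp_rw [e1]
  rw [integral_const_mul, one_div, inv_mul_le_iff₀ (by positivity)]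
  linarith

end Pool.Agent.Results.MP_0a5adf_nt.RecurrenceSmallExcursion
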